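import Pool.Agent.Y316.NF.Seq

set_option autoImplicit false

/-!
# The function `α`
-/

open MeasureTheory Filter Topology Set
open scoped ContDiff

namespace Pool.Agent.Y316.NF

namespace Dat

variable {θ : ℝ} (D : Dat θ)

/-- the small divisors -/
noncomputable def δ (j : ℕ) : ℝ := (D.q j : ℝ) * θ - D.p j

/-- the linear forms -/
noncomputable def lin (j : ℕ) (v : ℝ × ℝ × ℝ) : ℝ := D.q j * v.2.1 - D.p j * v.1

theorem Bpos (j : ℕ) : 0 < D.B j := lt_of_lt_of_le one_pos (D.hB1 j)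

theorem qpos (j : ℕ) : (1 : ℝ) ≤ D.q j := by exact_mod_cast D.q1 j

theorem δpos (j : ℕ) : 0 < |D.δ j| := abs_pos.2 (D.δ0 j)

theorem base_ge (j : ℕ) : 1 ≤ (2 + |θ|) * D.q j := by
  have h1 := D.qpos j
  have h2 := abs_nonneg θ
  nlinarith

theorem small' {j k : ℕ} (hk : k ≤ j + 1) :
    |D.δ j| * D.B j * ((2 + |θ|) * D.q j) ^ k ≤ (1 / 2) ^ (j + 3) := by
  refine le_trans ?_ (D.small j)
  refine mul_le_mul_of_nonneg_left ?_ (mul_nonneg (abs_nonneg _) (D.Bpos j).le)
  exact pow_le_pow_right₀ (D.base_ge j) hk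

theorem δB (j : ℕ) : |D.δ j| * D.B j ≤ (1 / 2) ^ (j + 3) := by
  have := D.small' (j := j) (k := 0) (Nat.zero_le _)
  simpa using this

theorem δBq (j : ℕ) : |D.δ j| * D.B j * D.q j ≤ (1 / 2) ^ (j + 3) := by
  refine le_trans ?_ (D.small' (j := j) (k := 1) (by omega))
  rw [pow_one]
  refine mul_le_mul_of_nonneg_left ?_ (mul_nonneg (abs_nonneg _) (D.Bpos j).le)
  have h1 := D.qpos j
  have h2 := abs_nonneg θ
  nlinarith

theorem p_le (j : ℕ) : |(D.p j : ℝ)| ≤ (1 + |θ|) * D.q j := by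
  have h1 : |D.δ j| ≤ 1 := by
    have h2 := D.δB j
    have h3 := D.hB1 j
    have h4 : |D.δ j| ≤ |D.δ j| * D.B j := le_mul_of_one_le_right (abs_nonneg _) h3
    have h5 : (1 / 2 : ℝ) ^ (j + 3) ≤ 1 := pow_le_one₀ (by norm_num) (by norm_num)
    linarith
  have h2 : (D.p j : ℝ) = D.q j * θ - D.δ j := by unfold δ; ring
  rw [h2]
  have h3 : |(D.q j : ℝ) * θ - D.δ j| ≤ |(D.q j : ℝ) * θ| + |D.δ j| := abs_sub _ _
  have h5 : |(D.q j : ℝ) * θ| = D.q j * |θ| := by
    rw [abs_mul, abs_of_nonneg (Nat.cast_nonneg (α := ℝ) (D.q j))]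
  rw [h5] at h3
  have h4 := D.qpos j
  linarith

theorem lin_shift (j : ℕ) (v : ℝ × ℝ × ℝ) (a b : ℤ) (y : ℝ) :
    D.lin j (a + v.1, b + v.2.1, y) = D.lin j v + ((D.q j * b - D.p j * a : ℤ) : ℝ) := by
  unfold lin
  push_cast
  ring

theorem lin_flow (j : ℕ) (v : ℝ × ℝ × ℝ) (t y : ℝ) :
    D.lin j (v.1 + t, v.2.1 + t * θ, y) = D.lin j v + t * D.δ j := by
  unfold lin δ
  ring

theorem prof_lip (j : ℕ) (s h : ℝ) :
    |prof (D.K j) (s + h) - prof (D.K j) s| ≤ D.B j * |h| := by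
  have hd : Differentiable ℝ (prof (D.K j)) :=
    (contDiff_prof _).differentiable (by norm_num)
  have := Convex.norm_image_sub_le_of_norm_deriv_le (f := prof (D.K j)) (C := D.B j)
    (s := univ) (x := s) (y := s + h) (fun x _ => hd x) (fun x _ => by
      have h1 := D.hB j 1 (by omega) x
      rw [iteratedDeriv_one] at h1
      exact h1) convex_univ (mem_univ _) (mem_univ _)
  rw [Real.norm_eq_abs, Real.norm_eq_abs, add_sub_cancel_left] at this
  exact this

theorem deriv_add_int (K s : ℝ) (n : ℤ) : deriv (prof K) (s + n) = deriv (prof K) s := by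
  rw [← deriv_comp_add_const]
  congr 1
  funext z
  exact prof_add_int K z n

/-- the terms of `α` -/
noncomputable def term (j : ℕ) (v : ℝ × ℝ × ℝ) : ℝ := D.δ j * deriv (prof (D.K j)) (D.lin j v)

theorem term_le (j : ℕ) (v : ℝ × ℝ × ℝ) : |D.term j v| ≤ (1 / 2) ^ (j + 3) := by
  unfold term
  rw [abs_mul]
  refine le_trans ?_ (D.δB j)
  refine mul_le_mul_of_nonneg_left ?_ (abs_nonneg _)
  have h1 := D.hB j 1 (by omega) (D.lin j v)
  rwa [iteratedDeriv_one] at h1

theorem summable_half : Summable fun j : ℕ => (1 / 2 : ℝ) ^ (j + 3) := by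
  simp_rw [pow_add]
  exact (summable_geometric_of_lt_one (by norm_num) (by norm_num)).mul_right _

theorem tsum_half : ∑' j : ℕ, (1 / 2 : ℝ) ^ (j + 3) = 1 / 4 := by
  simp_rw [pow_add]
  rw [tsum_mul_right, tsum_geometric_of_lt_one (by norm_num) (by norm_num)]
  norm_num

theorem summable_term (v : ℝ × ℝ × ℝ) : Summable fun j => D.term j v :=
  Summable.of_norm_bounded summable_half fun j => D.term_le j v

/-- the lift of `α` -/
noncomputable def αl (v : ℝ × ℝ × ℝ) : ℝ := 1 + ∑' j, D.term j v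

theorem αl_bound (v : ℝ × ℝ × ℝ) : |D.αl v - 1| ≤ 1 / 4 := by
  unfold αl
  rw [add_sub_cancel_left, ← tsum_half, ← Real.norm_eq_abs]
  exact tsum_of_norm_bounded summable_half.hasSum fun j => D.term_le j v

theorem αl_inv {v w : ℝ × ℝ × ℝ} (h : pr v = pr w) : D.αl w = D.αl v := by
  obtain ⟨a, b, c, rfl⟩ := pr_eq.1 h
  unfold αl term
  congr 1
  refine tsum_congr fun j => ?_
  rw [D.lin_shift j v a b, deriv_add_int]

/-- the function `α` on the nilmanifold -/
noncomputable def α (p : Nil) : ℝ := D.αl (sec p)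

theorem α_pr (v : ℝ × ℝ × ℝ) : D.α (pr v) = D.αl v := D.αl_inv (pr_sec (pr v)).symm

theorem α_bound (p : Nil) : |D.α p - 1| ≤ 1 / 4 := D.αl_bound _

theorem α_pos (p : Nil) : 0 < D.α p := by
  have := abs_le.1 (D.α_bound p)
  linarith

theorem α_ge (p : Nil) : 3 / 4 ≤ D.α p := by
  have := abs_le.1 (D.α_bound p)
  linarith

theorem α_le (p : Nil) : D.α p ≤ 5 / 4 := by
  have := abs_le.1 (D.α_bound p)
  linarith

/-- the linear form as a continuous linear map -/
noncomputable def linL (j : ℕ) : (ℝ × ℝ × ℝ) →L[ℝ] ℝ :=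
  (D.q j : ℝ) • ((ContinuousLinearMap.fst ℝ ℝ ℝ).comp (ContinuousLinearMap.snd ℝ ℝ (ℝ × ℝ))) -
    (D.p j : ℝ) • (ContinuousLinearMap.fst ℝ ℝ (ℝ × ℝ))

theorem linL_apply (j : ℕ) (v : ℝ × ℝ × ℝ) : D.linL j v = D.lin j v := by
  unfold linL lin
  simp

theorem linL_norm (j : ℕ) : ‖D.linL j‖ ≤ (2 + |θ|) * D.q j := by
  refine ContinuousLinearMap.opNorm_le_bound _ (by have := D.base_ge j; linarith) fun v => ?_
  rw [linL_apply]
  unfold lin
  have h1 : |v.1| ≤ ‖v‖ := by
    have := norm_fst_le v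
    simpa using this
  have h2 : |v.2.1| ≤ ‖v‖ := by
    have h3 := norm_snd_le v
    have h4 := norm_fst_le v.2
    rw [Real.norm_eq_abs] at h4
    exact h4.trans h3
  have h3 := D.p_le j
  have h4 := D.qpos j
  rw [Real.norm_eq_abs]
  calc |(D.q j : ℝ) * v.2.1 - D.p j * v.1| ≤ |(D.q j : ℝ) * v.2.1| + |(D.p j : ℝ) * v.1| :=
        abs_sub _ _
    _ = D.q j * |v.2.1| + |(D.p j : ℝ)| * |v.1| := by
        rw [abs_mul, abs_mul, abs_of_nonneg (Nat.cast_nonneg (D.q j))]
    _ ≤ D.q j * ‖v‖ + ((1 + |θ|) * D.q j) * ‖v‖ := by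
        have h5 := norm_nonneg v
        have h6 := abs_nonneg v.1
        gcongr
    _ = (2 + |θ|) * D.q j * ‖v‖ := by ring

theorem contDiff_term (j : ℕ) : ContDiff ℝ ∞ (D.term j) := by
  unfold term
  have h1 : ContDiff ℝ ∞ (deriv (prof (D.K j))) := by
    have h := contDiff_prof (D.K j)
    exact (contDiff_infty_iff_deriv.1 h).2
  have h2 : ContDiff ℝ ∞ fun v => deriv (prof (D.K j)) (D.lin j v) := by
    have h3 := h1.comp (D.linL j).contDiff
    have h4 : (fun v => deriv (prof (D.K j)) (D.lin j v)) =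
        (deriv (prof (D.K j))) ∘ (D.linL j) := by
      funext v
      rw [Function.comp_apply, linL_apply]
    rw [h4]
    exact h3
  exact contDiff_const.mul h2

theorem term_iter (j k : ℕ) (hk : k ≤ j + 1) (v : ℝ × ℝ × ℝ) :
    ‖iteratedFDeriv ℝ k (D.term j) v‖ ≤ (1 / 2) ^ (j + 3) := by
  have h1 : ContDiff ℝ ∞ (deriv (prof (D.K j))) :=
    (contDiff_infty_iff_deriv.1 (contDiff_prof (D.K j))).2
  have e : D.term j = (D.δ j) • ((deriv (prof (D.K j))) ∘ (D.linL j)) := by
    funext v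
    simp only [term, Pi.smul_apply, Function.comp_apply, linL_apply, smul_eq_mul]
  have h2 : ContDiff ℝ ∞ ((deriv (prof (D.K j))) ∘ (D.linL j)) := h1.comp (D.linL j).contDiff
  rw [e]
  rw [iteratedFDeriv_const_smul_apply (h2.contDiffAt.of_le (by exact_mod_cast le_top))]
  rw [norm_smul, Real.norm_eq_abs]
  rw [ContinuousLinearMap.iteratedFDeriv_comp_right (D.linL j) h1 v (by exact_mod_cast le_top)]
  have h3 := ContinuousMultilinearMap.norm_compContinuousLinearMap_le
    (iteratedFDeriv ℝ k (deriv (prof (D.K j))) (D.linL j v)) (fun _ => D.linL j)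
  rw [Finset.prod_const, Finset.card_univ, Fintype.card_fin] at h3
  have h4 : ‖iteratedFDeriv ℝ k (deriv (prof (D.K j))) (D.linL j v)‖ ≤ D.B j := by
    rw [norm_iteratedFDeriv_eq_norm_iteratedDeriv, ← iteratedDeriv_succ']
    exact D.hB j (k + 1) (by omega) _
  have h5 : ‖D.linL j‖ ^ k ≤ ((2 + |θ|) * D.q j) ^ k :=
    pow_le_pow_left₀ (norm_nonneg _) (D.linL_norm j) k
  calc |D.δ j| * ‖(iteratedFDeriv ℝ k (deriv (prof (D.K j)))
        (D.linL j v)).compContinuousLinearMap fun _ => D.linL j‖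
      ≤ |D.δ j| * (D.B j * ((2 + |θ|) * D.q j) ^ k) := by
        refine mul_le_mul_of_nonneg_left (h3.trans ?_) (abs_nonneg _)
        exact mul_le_mul h4 h5 (by positivity) (D.Bpos j).le
    _ = |D.δ j| * D.B j * ((2 + |θ|) * D.q j) ^ k := by ring
    _ ≤ (1 / 2) ^ (j + 3) := D.small' hk

theorem contDiff_αl : ContDiff ℝ ∞ D.αl := by
  unfold αl
  refine contDiff_const.add ?_
  refine contDiff_tsum_of_eventually (v := fun _ j => (1 / 2 : ℝ) ^ (j + 3))
    (fun j => D.contDiff_term j) (fun _ _ => summable_half) fun k _ => ?_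
  rw [Nat.cofinite_eq_atTop]
  filter_upwards [eventually_ge_atTop k] with j hj v
  exact D.term_iter j k (by omega) v

theorem smooth_α : SmoothOnNil D.α := by
  unfold SmoothOnNil
  have h : (fun v : ℝ × ℝ × ℝ => D.α (coset ⟨v.1, v.2.1, v.2.2⟩)) = D.αl := by
    funext v
    exact D.α_pr v
  rw [h]
  exact D.contDiff_αl

theorem measurable_α : Measurable D.α := by
  refine measurable_of_lift ?_
  have : D.α ∘ pr = D.αl := by
    funext v
    exact D.α_pr v
  rw [this]
  exact D.contDiff_αl.continuous.measurable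

/-- the transfer functions -/
noncomputable def A (j : ℕ) (p : Nil) : ℝ := prof (D.K j) (D.lin j (sec p))

theorem A_pr (j : ℕ) (v : ℝ × ℝ × ℝ) : D.A j (pr v) = prof (D.K j) (D.lin j v) := by
  unfold A
  obtain ⟨a, b, c, h⟩ := pr_eq.1 (pr_sec (pr v)).symm
  rw [h, D.lin_shift j v a b, prof_add_int]

theorem measurable_A (j : ℕ) : Measurable (D.A j) := by
  refine measurable_of_lift ?_
  have : D.A j ∘ pr = fun v => prof (D.K j) (D.linL j v) := by
    funext v
    rw [Function.comp_apply, A_pr, linL_apply]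
  rw [this]
  exact ((contDiff_prof _).continuous.comp (D.linL j).continuous).measurable

theorem A_flow (j : ℕ) (v : ℝ × ℝ × ℝ) (t : ℝ) :
    D.A j (φ θ t (pr v)) = prof (D.K j) (D.lin j v + t * D.δ j) := by
  rw [φ_pr, A_pr, lin_flow]

theorem α_flow (v : ℝ × ℝ × ℝ) (t : ℝ) :
    D.α (φ θ t (pr v)) = 1 + ∑' j, D.δ j * deriv (prof (D.K j)) (D.lin j v + t * D.δ j) := by
  rw [φ_pr, α_pr]
  unfold αl term
  congr 1
  refine tsum_congr fun j => ?_
  rw [lin_flow]

theorem continuous_α_flow (p : Nil) : Continuous fun t => D.α (φ θ t p) := by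
  obtain ⟨v, rfl⟩ := pr_surj p
  have : (fun t => D.α (φ θ t (pr v))) = fun t => D.αl (v.1 + t, v.2.1 + t * θ,
      v.2.2 + t ^ 2 * θ / 2 + v.1 * (t * θ)) := by
    funext t
    rw [φ_pr, α_pr]
  rw [this]
  exact D.contDiff_αl.continuous.comp (by fun_prop)

theorem A_sub_le (j : ℕ) (p : Nil) (t : ℝ) :
    |D.A j (φ θ t p) - D.A j p| ≤ |t| * (1 / 2) ^ (j + 3) := by
  obtain ⟨v, rfl⟩ := pr_surj p
  rw [A_flow, A_pr]
  refine (D.prof_lip j _ _).trans ?_
  rw [abs_mul]
  calc D.B j * (|t| * |D.δ j|) = |t| * (|D.δ j| * D.B j) := by ring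
    _ ≤ |t| * (1 / 2) ^ (j + 3) := mul_le_mul_of_nonneg_left (D.δB j) (abs_nonneg _)

theorem summable_A_sub (p : Nil) (t : ℝ) : Summable fun j => D.A j (φ θ t p) - D.A j p :=
  Summable.of_norm_bounded (summable_half.mul_left |t|) fun j => D.A_sub_le j p t

/-- the Birkhoff integral of `α` -/
theorem integral_α (p : Nil) (t : ℝ) : ∫ s in (0 : ℝ)..t, D.α (φ θ s p) =
    t + ∑' j, (D.A j (φ θ t p) - D.A j p) := by
  obtain ⟨v, rfl⟩ := pr_surj p
  have hder : ∀ (j : ℕ) (s : ℝ), HasDerivAt (fun s => prof (D.K j) (D.lin j v + s * D.δ j))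
      (D.δ j * deriv (prof (D.K j)) (D.lin j v + s * D.δ j)) s := by
    intro j s
    have hd : Differentiable ℝ (prof (D.K j)) := (contDiff_prof _).differentiable (by norm_num)
    have h1 := (hd (D.lin j v + s * D.δ j)).hasDerivAt
    have h2 : HasDerivAt (fun s : ℝ => D.lin j v + s * D.δ j) (D.δ j) s := by
      have := ((hasDerivAt_id s).mul_const (D.δ j)).const_add (D.lin j v)
      simpa using this
    have h3 := h1.comp s h2
    rw [mul_comm] at h3
    exact h3
  have hcont : ∀ j : ℕ, Continuous fun s : ℝ =>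
      D.δ j * deriv (prof (D.K j)) (D.lin j v + s * D.δ j) := by
    intro j
    have h1 : Continuous (deriv (prof (D.K j))) :=
      (contDiff_infty_iff_deriv.1 (contDiff_prof (D.K j))).2.continuous
    exact continuous_const.mul (h1.comp (by fun_prop))
  have hint : ∀ j : ℕ, ∫ s in (0 : ℝ)..t, D.δ j * deriv (prof (D.K j)) (D.lin j v + s * D.δ j) =
      D.A j (φ θ t (pr v)) - D.A j (pr v) := by
    intro j
    rw [intervalIntegral.integral_eq_sub_of_hasDerivAt (fun s _ => hder j s)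
      ((hcont j).intervalIntegrable _ _), A_flow, A_pr]
    simp
  have hb : ∀ (j : ℕ) (s : ℝ),
      ‖D.δ j * deriv (prof (D.K j)) (D.lin j v + s * D.δ j)‖ ≤ (1 / 2) ^ (j + 3) := by
    intro j s
    rw [Real.norm_eq_abs, abs_mul]
    refine le_trans ?_ (D.δB j)
    refine mul_le_mul_of_nonneg_left ?_ (abs_nonneg _)
    have h1 := D.hB j 1 (by omega) (D.lin j v + s * D.δ j)
    rwa [iteratedDeriv_one] at h1
  have hs := intervalIntegral.hasSum_integral_of_dominated_convergence (μ := volume)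
    (a := (0 : ℝ)) (b := t)
    (F := fun (j : ℕ) (s : ℝ) => D.δ j * deriv (prof (D.K j)) (D.lin j v + s * D.δ j))
    (f := fun s => ∑' j, D.δ j * deriv (prof (D.K j)) (D.lin j v + s * D.δ j))
    (fun (j : ℕ) (_ : ℝ) => (1 / 2 : ℝ) ^ (j + 3))
    (fun j => (hcont j).aestronglyMeasurable)
    (fun j => Eventually.of_forall fun s _ => hb j s)
    (Eventually.of_forall fun s _ => summable_half)
    (by simp)
    (Eventually.of_forall fun s _ =>
      (Summable.of_norm_bounded summable_half fun j => hb j s).hasSum)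
  simp_rw [hint] at hs
  rw [hs.tsum_eq]
  have h5 : ∀ s : ℝ, D.α (φ θ s (pr v)) = 1 +
      ∑' j, D.δ j * deriv (prof (D.K j)) (D.lin j v + s * D.δ j) := fun s => D.α_flow v s
  have hc := D.continuous_α_flow (pr v)
  have h6 : Continuous fun s : ℝ =>
      ∑' j, D.δ j * deriv (prof (D.K j)) (D.lin j v + s * D.δ j) := by
    have : (fun s : ℝ => ∑' j, D.δ j * deriv (prof (D.K j)) (D.lin j v + s * D.δ j)) =
        fun s => D.α (φ θ s (pr v)) - 1 := by
      funext s
      rw [h5]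
      ring
    rw [this]
    exact hc.sub continuous_const
  simp_rw [h5]
  rw [intervalIntegral.integral_add (continuous_const.intervalIntegrable _ _)
    (h6.intervalIntegrable _ _)]
  simp

end Dat

end Pool.Agent.Y316.NF
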