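import Mathlib

set_option autoImplicit false

/-!
# Smooth time changes of Heisenberg nilflows: definitions
-/

open MeasureTheory Filter Topology
open scoped ContDiff

namespace Pool.Agent.Y316.NF

/-- The Heisenberg group; `(x, y, z)` stands for the matrix `[1 x z; 0 1 y; 0 0 1]`. -/
@[ext] structure Heis where
  x : ℝ
  y : ℝ
  z : ℝ

namespace Heis

/-- Matrix multiplication. -/
instance : Group Heis where
  mul g h := ⟨g.x + h.x, g.y + h.y, g.z + h.z + g.x * h.y⟩
  one := ⟨0, 0, 0⟩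
  inv g := ⟨-g.x, -g.y, -g.z + g.x * g.y⟩
  mul_assoc g h k := by
    apply Heis.ext
    · change g.x + h.x + k.x = g.x + (h.x + k.x); ring
    · change g.y + h.y + k.y = g.y + (h.y + k.y); ring
    · change (g.z + h.z + g.x * h.y) + k.z + (g.x + h.x) * k.y =
        g.z + (h.z + k.z + h.x * k.y) + g.x * (h.y + k.y)
      ring
  one_mul g := by
    apply Heis.ext
    · change 0 + g.x = g.x; ring
    · change 0 + g.y = g.y; ring
    · change 0 + g.z + 0 * g.y = g.z; ring
  mul_one g := by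
    apply Heis.ext
    · change g.x + 0 = g.x; ring
    · change g.y + 0 = g.y; ring
    · change g.z + 0 + g.x * 0 = g.z; ring
  inv_mul_cancel g := by
    apply Heis.ext
    · change -g.x + g.x = 0; ring
    · change -g.y + g.y = 0; ring
    · change (-g.z + g.x * g.y) + g.z + (-g.x) * g.y = 0; ring

@[simp] theorem mul_x (g h : Heis) : (g * h).x = g.x + h.x := rfl
@[simp] theorem mul_y (g h : Heis) : (g * h).y = g.y + h.y := rfl
@[simp] theorem mul_z (g h : Heis) : (g * h).z = g.z + h.z + g.x * h.y := rfl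
@[simp] theorem one_x : (1 : Heis).x = 0 := rfl
@[simp] theorem one_y : (1 : Heis).y = 0 := rfl
@[simp] theorem one_z : (1 : Heis).z = 0 := rfl
@[simp] theorem inv_x (g : Heis) : (g⁻¹).x = -g.x := rfl
@[simp] theorem inv_y (g : Heis) : (g⁻¹).y = -g.y := rfl
@[simp] theorem inv_z (g : Heis) : (g⁻¹).z = -g.z + g.x * g.y := rfl

/-- The topology of `ℝ³`. -/
instance : TopologicalSpace Heis :=
  TopologicalSpace.induced (fun g => (g.x, g.y, g.z)) inferInstance

/-- The lattice of integer matrices. -/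
def lattice : Subgroup Heis where
  carrier := {g | ∃ a b c : ℤ, g = ⟨a, b, c⟩}
  mul_mem' := by
    rintro _ _ ⟨a, b, c, rfl⟩ ⟨a', b', c', rfl⟩
    exact ⟨a + a', b + b', c + c' + a * b', by apply Heis.ext <;> simp⟩
  one_mem' := ⟨0, 0, 0, by apply Heis.ext <;> simp⟩
  inv_mem' := by
    rintro _ ⟨a, b, c, rfl⟩
    exact ⟨-a, -b, -c + a * b, by apply Heis.ext <;> simp⟩

end Heis

/-- The Heisenberg nilmanifold `Γ \ G`: the space of the cosets `Γ g`, with the quotient topology
and its Borel sigma-algebra. -/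
def Nil : Type := Quotient (QuotientGroup.rightRel Heis.lattice)

instance : TopologicalSpace Nil :=
  inferInstanceAs (TopologicalSpace (Quotient (QuotientGroup.rightRel Heis.lattice)))

instance : MeasurableSpace Nil := borel Nil

instance : BorelSpace Nil := ⟨rfl⟩

/-- The coset `Γ g`. -/
def coset (g : Heis) : Nil := Quotient.mk (QuotientGroup.rightRel Heis.lattice) g

/-- Right translation `Γ g ↦ Γ g h`. -/
def rtrans (h : Heis) : Nil → Nil :=
  Quotient.map (· * h) (by
    intro a b hab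
    rw [← Quotient.eq_iff_equiv, Quotient.eq] at hab ⊢
    rw [QuotientGroup.rightRel_apply] at hab ⊢
    simpa [mul_assoc] using hab)

/-- The exponential map: `exp [0 a c; 0 0 b; 0 0 0] = [1 a (c + a b / 2); 0 1 b; 0 0 1]`. -/
noncomputable def expo (a b c : ℝ) : Heis := ⟨a, b, c + a * b / 2⟩

/-- The nilflow of `X = [0 a c; 0 0 b; 0 0 0]`: `φ_t (Γ g) = Γ g exp (t X)`. -/
noncomputable def nilflow (a b c : ℝ) (t : ℝ) : Nil → Nil := rtrans (expo (t * a) (t * b) (t * c))

/-- `α` is a `C^∞` function on the nilmanifold, i.e. its lift to `G = ℝ³` is `C^∞`. -/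
def SmoothOnNil (α : Nil → ℝ) : Prop :=
  ContDiff ℝ ∞ fun v : ℝ × ℝ × ℝ => α (coset ⟨v.1, v.2.1, v.2.2⟩)

/-- `α` is measurably cohomologous to a constant for the flow `φ` with invariant measure `μ`. -/
def MeasurablyTrivial (μ : Measure Nil) (φ : ℝ → Nil → Nil) (α : Nil → ℝ) : Prop :=
  ∃ (c : ℝ) (u : Nil → ℝ), Measurable u ∧
    ∀ t : ℝ, ∀ᵐ p ∂μ, u (φ t p) - u p = ∫ s in (0 : ℝ)..t, (α (φ s p) - c)

/-- `ψ` is the time change of the flow `φ` given by `α`: the flow generated by `X / α`, where `X`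
generates `φ`. In detail, `ψ_t p = φ_{T(t)} p` where `T(0) = 0` and `T'(t) = 1 / α (ψ_t p)`. -/
def IsTimeChange (φ : ℝ → Nil → Nil) (α : Nil → ℝ) (ψ : ℝ → Nil → Nil) : Prop :=
  ∀ p : Nil, ∃ T : ℝ → ℝ, T 0 = 0 ∧
    ∀ t : ℝ, ψ t p = φ (T t) p ∧ HasDerivAt T (1 / α (ψ t p)) t

/-- The probability measure proportional to `α dμ`. -/
noncomputable def weighted (μ : Measure Nil) (α : Nil → ℝ) : Measure Nil :=
  (μ.withDensity (fun p => ENNReal.ofReal (α p)) Set.univ)⁻¹ •
    μ.withDensity (fun p => ENNReal.ofReal (α p))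

/-- Weak mixing of the flow `ψ` for the measure `ν`. -/
def WeaklyMixing (ν : Measure Nil) (ψ : ℝ → Nil → Nil) : Prop :=
  ∀ A B : Set Nil, MeasurableSet A → MeasurableSet B →
    Tendsto (fun t : ℝ => (1 / t) * ∫ s in (0 : ℝ)..t,
      |ν.real (ψ s '' A ∩ B) - ν.real A * ν.real B|) atTop (𝓝 0)

/-- Mixing of the flow `ψ` for the measure `ν`. -/
def Mixing (ν : Measure Nil) (ψ : ℝ → Nil → Nil) : Prop :=
  ∀ A B : Set Nil, MeasurableSet A → MeasurableSet B →
    Tendsto (fun t : ℝ => ν.real (ψ t '' A ∩ B)) atTop (𝓝 (ν.real A * ν.real B))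

end Pool.Agent.Y316.NF
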