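import Pool.Agent.Y316.NF.Inv

set_option autoImplicit false

/-!
# The eigenfunction of the time change
-/

open MeasureTheory Filter Topology Set
open scoped ContDiff

namespace Pool.Agent.Y316.NF

/-- the normalised Haar measure of the circle -/
noncomputable abbrev h1 : Measure 𝕋 := AddCircle.haarAddCircle

namespace Dat

variable {θ : ℝ} (D : Dat θ)

/-- the sum of the fractional parts -/
noncomputable def W (p : Nil) : ℝ := (∑' j, ENNReal.ofReal (Int.fract (D.A j p))).toReal

theorem measurable_W : Measurable D.W :=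
  (Measurable.tsum fun j => ((D.measurable_A j).fract).ennreal_ofReal).ennreal_toReal

/-- the good set -/
def Good (p : Nil) : Prop := Summable fun j => Int.fract (D.A j p)

variable {D}

theorem W_eq {p : Nil} (h : D.Good p) : D.W p = ∑' j, Int.fract (D.A j p) := by
  unfold W
  rw [← ENNReal.ofReal_tsum_of_nonneg (fun j => Int.fract_nonneg _) h,
    ENNReal.toReal_ofReal (tsum_nonneg fun j => Int.fract_nonneg _)]

variable (D)

theorem ae_good : ∀ᵐ p ∂μ, D.Good p := by
  have h : ∑' j, μ (D.Bad j) ≠ ⊤ := by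
    refine ne_top_of_le_ne_top ?_ (ENNReal.tsum_le_tsum fun j => D.μ_Bad j)
    rw [ENNReal.tsum_geometric]
    simp
  filter_upwards [ae_eventually_notMem h] with p hp
  obtain ⟨N, hN⟩ := eventually_atTop.1 hp
  refine summable_of_ne_finset_zero (s := Finset.range N) fun j hj => ?_
  have h1 := hN j (by simpa using hj)
  have h2 : D.A j p = 0 ∨ D.A j p = 1 := not_not.1 h1
  rcases h2 with h2 | h2
  · rw [h2, Int.fract_zero]
  · rw [h2, Int.fract_one]

/-- the eigenfunction -/
noncomputable def F (p : Nil) : 𝕋 := Θ p 0 + (D.W p : 𝕋)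

theorem measurable_F : Measurable D.F :=
  (measurable_Θ_apply 0).add (AddCircle.measurable_mk'.comp D.measurable_W)

theorem Θ_zero_φ (T : ℝ) (p : Nil) : Θ (φ θ T p) 0 = Θ p 0 + (T : 𝕋) := by
  obtain ⟨v, rfl⟩ := pr_surj p
  rw [φ_pr, Θ_pr, Θ_pr]
  exact AddCircle.coe_add _ _ _

variable {D}

theorem F_φ {p : Nil} {T : ℝ} (h : D.Good p) (h' : D.Good (φ θ T p)) :
    D.F (φ θ T p) = D.F p + (D.R p T : 𝕋) := by
  have hs := (D.summable_A_sub p T).hasSum
  have hd := (h'.hasSum.sub h.hasSum)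
  have he := hs.sub hd
  rw [← W_eq h, ← W_eq h'] at he
  have hz := he.map (QuotientAddGroup.mk' (AddSubgroup.zmultiples (1 : ℝ)))
    continuous_quotient_mk'
  have h0 : ((QuotientAddGroup.mk' (AddSubgroup.zmultiples (1 : ℝ))) ∘ fun j =>
      D.A j (φ θ T p) - D.A j p -
        (Int.fract (D.A j (φ θ T p)) - Int.fract (D.A j p))) = fun _ => (0 : 𝕋) := by
    funext j
    show ((D.A j (φ θ T p) - D.A j p -
        (Int.fract (D.A j (φ θ T p)) - Int.fract (D.A j p)) : ℝ) : 𝕋) = 0
    rw [AddCircle.coe_eq_zero_iff]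
    refine ⟨⌊D.A j (φ θ T p)⌋ - ⌊D.A j p⌋, ?_⟩
    have e1 := Int.self_sub_floor (D.A j (φ θ T p))
    have e2 := Int.self_sub_floor (D.A j p)
    simp only [zsmul_eq_mul, mul_one]
    push_cast
    linarith
  rw [h0] at hz
  have h2 := hz.unique hasSum_zero
  have h3 : (((∑' j, (D.A j (φ θ T p) - D.A j p)) - (D.W (φ θ T p) - D.W p) : ℝ) : 𝕋) = 0 := h2
  have h4 : ((D.W (φ θ T p) : ℝ) : 𝕋) = (D.W p : 𝕋) +
      ((∑' j, (D.A j (φ θ T p) - D.A j p) : ℝ) : 𝕋) := by
    rw [AddCircle.coe_sub, AddCircle.coe_sub] at h3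
    rw [sub_eq_zero.1 h3]
    abel
  unfold F
  rw [Θ_zero_φ, h4, R_eq, AddCircle.coe_add]
  abel

variable (D)

theorem F_ψ (t : ℝ) : ∀ᵐ p ∂D.ν, D.F (D.ψ t p) = D.F p + (t : 𝕋) := by
  have h1 : ∀ᵐ p ∂D.ν, D.Good p := D.ae_ν D.ae_good
  have h2 : ∀ᵐ p ∂D.ν, D.Good (D.ψ t p) := by
    have h3 : ∀ᵐ p ∂(D.ν.map (D.ψ t)), D.Good p := by
      rw [D.map_ν]
      exact h1
    exact ae_of_ae_map (D.measurable_ψ t).aemeasurable h3
  filter_upwards [h1, h2] with p hp hp'
  have := F_φ (T := D.τ p t) hp hp'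
  rw [D.R_τ] at this
  exact this

theorem map_F : D.ν.map D.F = h1 := by
  have : IsProbabilityMeasure (D.ν.map D.F) :=
    Measure.isProbabilityMeasure_map D.measurable_F.aemeasurable
  refine circle_eq_haar fun n hn => ?_
  have hfm : Measurable fun x : 𝕋 => (fourier n x : ℂ) := (fourier n).continuous.measurable
  rw [integral_map_fun D.measurable_F hfm]
  have hni : (n : ℝ) ≠ 0 := by exact_mod_cast hn
  have e1 : ∫ p, (fourier n (D.F p) : ℂ) ∂D.ν =
      ∫ p, (fourier n (D.F (D.ψ ((1 / 2) / n) p)) : ℂ) ∂D.ν := by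
    have := integral_map_fun (P := D.ν) (D.measurable_ψ ((1 / 2) / n))
      (hfm.comp D.measurable_F)
    rw [D.map_ν] at this
    exact this
  have e2 : ∫ p, (fourier n (D.F (D.ψ ((1 / 2) / n) p)) : ℂ) ∂D.ν =
      -1 * ∫ p, (fourier n (D.F p) : ℂ) ∂D.ν := by
    rw [← integral_const_mul]
    refine integral_congr_ae ?_
    filter_upwards [D.F_ψ ((1 / 2) / n)] with p hp
    rw [hp]
    have h3 : fourier n (D.F p + (((1 / 2) / n : ℝ) : 𝕋)) =
        fourier n (((1 / 2) / n : ℝ) : 𝕋) * fourier n (D.F p) := by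
      simp only [fourier_apply, smul_add, AddCircle.toCircle_add, Circle.coe_mul]
      ring
    rw [h3, fourier_coe, mul_div_cancel₀ _ hni, ee_half]
  rw [e2] at e1
  have h4 : (2 : ℂ) * ∫ p, (fourier n (D.F p) : ℂ) ∂D.ν = 0 := by
    linear_combination e1
  rcases mul_eq_zero.1 h4 with h5 | h5
  · norm_num at h5
  · exact h5

end Dat

/-! ### arcs of the circle -/

theorem haar_eq_volume (E : Set 𝕋) (hE : MeasurableSet E) :
    h1 E = volume.restrict (Ioc (0 : ℝ) 1) ((fun x : ℝ => (x : 𝕋)) ⁻¹' E) := by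
  have e1 := AddCircle.volume_eq_smul_haarAddCircle (T := (1 : ℝ))
  rw [ENNReal.ofReal_one, one_smul] at e1
  have e2 := AddCircle.measurePreserving_mk (1 : ℝ) 0
  rw [zero_add] at e2
  rw [e2.measure_preimage hE.nullMeasurableSet, e1]

theorem measurableSet_arc (a b : ℝ) : MeasurableSet {u : 𝕋 | a ≤ rep u ∧ rep u < b} :=
  (measurableSet_le measurable_const measurable_rep).inter
    (measurableSet_lt measurable_rep measurable_const)

theorem haar_arc {a b : ℝ} (ha : 0 ≤ a) (hb : b ≤ 1) :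
    h1 {u : 𝕋 | a ≤ rep u ∧ rep u < b} = ENNReal.ofReal (b - a) := by
  rw [haar_eq_volume _ (measurableSet_arc a b), Measure.restrict_apply]
  · apply le_antisymm
    · rw [← Real.volume_Icc]
      calc volume ((fun x : ℝ => (x : 𝕋)) ⁻¹' {u : 𝕋 | a ≤ rep u ∧ rep u < b} ∩ Ioc 0 1)
          ≤ volume (Icc a b ∪ {1}) := by
            refine measure_mono ?_
            rintro x ⟨⟨hx1, hx2⟩, hx3, hx4⟩
            rw [rep_coe] at hx1 hx2
            rcases hx4.lt_or_eq with h | h
            · left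
              rw [Int.fract_eq_self.2 ⟨hx3.le, h⟩] at hx1 hx2
              exact ⟨hx1, hx2.le⟩
            · right
              exact h
        _ ≤ volume (Icc a b) + volume {1} := measure_union_le _ _
        _ = volume (Icc a b) := by simp
    · rw [← Real.volume_Ioo]
      refine measure_mono ?_
      rintro x ⟨hx1, hx2⟩
      have h3 : Int.fract x = x := Int.fract_eq_self.2 ⟨by linarith, by linarith⟩
      refine ⟨⟨?_, ?_⟩, by linarith, by linarith⟩
      · rw [rep_coe, h3]
        exact hx1.le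
      · rw [rep_coe, h3]
        exact hx2
  · exact AddCircle.measurable_mk' (measurableSet_arc a b)

end Pool.Agent.Y316.NF
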