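import Pool.Agent.Y316.NF.Flow

set_option autoImplicit false

/-!
# Unique ergodicity of the nilflow
-/

open MeasureTheory Filter Topology Set
open scoped ComplexConjugate

namespace Pool.Agent.Y316.NF

open Heis

theorem bessel {Ω : Type*} [MeasurableSpace Ω] (P : Measure Ω) [IsProbabilityMeasure P]
    (v : ℤ → Ω → ℂ) (hv : ∀ k, Measurable (v k)) (h1 : ∀ k x, ‖v k x‖ = 1)
    (h2 : ∀ k l, k ≠ l → ∫ x, v l x * conj (v k x) ∂P = 0) (w : Ω → ℂ) (hw : Measurable w)
    {C : ℝ} (hC : ∀ x, ‖w x‖ ≤ C) :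
    Tendsto (fun k => ∫ x, w x * conj (v k x) ∂P) cofinite (𝓝 0) := by
  have hvm : ∀ k, MemLp (v k) 2 P := fun k =>
    MemLp.of_bound (hv k).aestronglyMeasurable 1 (Eventually.of_forall fun x => (h1 k x).le)
  have hwm : MemLp w 2 P :=
    MemLp.of_bound hw.aestronglyMeasurable C (Eventually.of_forall hC)
  have hin : ∀ (f g : Ω → ℂ) (hf : MemLp f 2 P) (hg : MemLp g 2 P),
      inner ℂ (hf.toLp f) (hg.toLp g) = ∫ x, g x * conj (f x) ∂P := by
    intro f g hf hg
    rw [L2.inner_def]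
    refine integral_congr_ae ?_
    filter_upwards [hf.coeFn_toLp, hg.coeFn_toLp] with x hx1 hx2
    rw [hx1, hx2]
    rfl
  have ho : Orthonormal ℂ fun k => (hvm k).toLp (v k) := by
    rw [orthonormal_iff_ite]
    intro k l
    rw [hin]
    split_ifs with hkl
    · subst hkl
      have : ∀ x, v k x * conj (v k x) = 1 := by
        intro x
        rw [Complex.mul_conj, Complex.normSq_eq_norm_sq, h1]
        simp
      simp_rw [this]
      simp
    · exact h2 k l hkl
  have hs := ho.inner_products_summable (x := hwm.toLp w)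
  have ht := hs.tendsto_cofinite_zero
  have ht2 : Tendsto (fun k => ‖∫ x, w x * conj (v k x) ∂P‖) cofinite (𝓝 0) := by
    have h3 := ht.sqrt
    simp only [Real.sqrt_zero] at h3
    refine h3.congr fun k => ?_
    rw [hin, Real.sqrt_sq (norm_nonneg _)]
  exact tendsto_zero_iff_norm_tendsto_zero.2 ht2

theorem integral_map_fun {X Y : Type*} [MeasurableSpace X] [MeasurableSpace Y] {P : Measure X}
    {T : X → Y} (hT : Measurable T) {F : Y → ℂ} (hF : Measurable F) :
    ∫ y, F y ∂(P.map T) = ∫ x, F (T x) ∂P :=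
  integral_map hT.aemeasurable hF.aestronglyMeasurable

theorem measurable_mF {d : Type} [Fintype d] (n : d → ℤ) :
    Measurable fun x : d → 𝕋 => UnitAddTorus.mFourier n x :=
  (UnitAddTorus.mFourier n).continuous.measurable

/-- projection to the base torus -/
noncomputable def base (p : Nil) : Fin 2 → 𝕋 := ![Θ p 0, Θ p 1]

theorem measurable_Θ_apply (i : Fin 3) : Measurable fun p : Nil => Θ p i :=
  (measurable_pi_apply (X := fun _ : Fin 3 => 𝕋) i).comp Θ.measurable

theorem measurable_base : Measurable base := by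
  refine measurable_pi_iff.2 fun i => ?_
  fin_cases i
  · exact measurable_Θ_apply 0
  · exact measurable_Θ_apply 1

theorem base_pr (v : ℝ × ℝ × ℝ) : base (pr v) = ![(v.1 : 𝕋), (v.2.1 : 𝕋)] := rfl

theorem base_φ (θ t : ℝ) (p : Nil) :
    base (φ θ t p) = ![(t : 𝕋), ((t * θ : ℝ) : 𝕋)] + base p := by
  obtain ⟨v, rfl⟩ := pr_surj p
  rw [φ_pr, base_pr, base_pr]
  ext i
  fin_cases i
  · show ((v.1 + t : ℝ) : 𝕋) = (t : 𝕋) + (v.1 : 𝕋)
    rw [AddCircle.coe_add, add_comm]
  · show ((v.2.1 + t * θ : ℝ) : 𝕋) = ((t * θ : ℝ) : 𝕋) + (v.2.1 : 𝕋)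
    rw [AddCircle.coe_add, add_comm]

variable {θ : ℝ}

theorem map_base (hθ : Irrational θ) {ν : Measure Nil} [IsProbabilityMeasure ν]
    (hν : ∀ t, ν.map (φ θ t) = ν) : ν.map base = haar (Fin 2) := by
  have : IsProbabilityMeasure (ν.map base) :=
    Measure.isProbabilityMeasure_map measurable_base.aemeasurable
  refine eq_haar fun n hn => ?_
  have hm : ∀ Q : Measure (Fin 2 → 𝕋),
      AEStronglyMeasurable (fun x => UnitAddTorus.mFourier n x) Q := fun Q =>
    (UnitAddTorus.mFourier n).continuous.measurable.aestronglyMeasurable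
  rw [integral_map measurable_base.aemeasurable (hm _)]
  have hne : (n 0 : ℝ) + n 1 * θ ≠ 0 := by
    intro h
    by_cases h1 : n 1 = 0
    · rw [h1] at h
      have h0 : n 0 = 0 := by simpa using h
      apply hn
      ext i
      fin_cases i
      · exact h0
      · exact h1
    · apply hθ
      refine ⟨-(n 0 : ℚ) / n 1, ?_⟩
      have h1' : (n 1 : ℝ) ≠ 0 := by exact_mod_cast h1
      push_cast
      rw [div_eq_iff h1']
      linarith
  set t : ℝ := (1 / 2) / ((n 0 : ℝ) + n 1 * θ) with ht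
  have h1 : ∫ p, UnitAddTorus.mFourier n (base p) ∂(ν.map (φ θ t)) =
      ∫ p, UnitAddTorus.mFourier n (base p) ∂ν := by rw [hν t]
  rw [integral_map_fun (F := fun p => UnitAddTorus.mFourier n (base p)) (measurable_φ θ t)
    ((measurable_mF n).comp measurable_base)] at h1
  have h2 : ∀ p, UnitAddTorus.mFourier n (base (φ θ t p)) =
      -1 * UnitAddTorus.mFourier n (base p) := by
    intro p
    rw [base_φ, mFourier_add_apply]
    congr 1
    rw [mFourier_apply, Fin.prod_univ_two]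
    simp only [Matrix.cons_val_zero, Matrix.cons_val_one]
    rw [fourier_coe, fourier_coe, ← ee_add, ← ee_half]
    congr 1
    rw [ht]
    field_simp
  simp_rw [h2] at h1
  rw [integral_const_mul] at h1
  have h3 : (2 : ℂ) * ∫ p, UnitAddTorus.mFourier n (base p) ∂ν = 0 := by
    linear_combination (-1 : ℂ) * h1
  rcases mul_eq_zero.1 h3 with h4 | h4
  · norm_num at h4
  · exact h4

theorem fourier_integral_haar_two {m : ℤ} (hm : m ≠ 0) (h : 𝕋 → ℂ) :
    ∫ w : Fin 2 → 𝕋, h (w 0) * fourier m (w 1) ∂(haar (Fin 2)) = 0 := by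
  have hni : (m : ℝ) ≠ 0 := by exact_mod_cast hm
  refine integral_eq_zero_of_translate ![0, (((1 / 2) / m : ℝ) : 𝕋)] (c := -1)
    (by norm_num) fun x => ?_
  have h0 : (![0, (((1 / 2) / m : ℝ) : 𝕋)] + x) 0 = x 0 := by simp
  have h1 : (![0, (((1 / 2) / m : ℝ) : 𝕋)] + x) 1 = (((1 / 2) / m : ℝ) : 𝕋) + x 1 := rfl
  rw [h0, h1]
  have h3 : fourier m ((((1 / 2) / m : ℝ) : 𝕋) + x 1) =
      fourier m (((1 / 2) / m : ℝ) : 𝕋) * fourier m (x 1) := by
    simp only [fourier_apply, smul_add, AddCircle.toCircle_add, Circle.coe_mul]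
  rw [h3, fourier_coe, mul_div_cancel₀ _ hni, ee_half]
  ring

theorem conj_ee (x : ℝ) : conj (ee x) = ee (-x) := by
  unfold ee
  rw [← Complex.exp_conj]
  congr 1
  simp only [map_mul, Complex.conj_I, Complex.conj_ofReal, map_ofNat, Complex.ofReal_neg]
  ring

/-- the functions `f_n ∘ φ_k` -/
noncomputable def vk (θ : ℝ) (n : Fin 3 → ℤ) (k : ℤ) (p : Nil) : ℂ :=
  UnitAddTorus.mFourier n (Θ (φ θ k p))

theorem measurable_vk (n : Fin 3 → ℤ) (k : ℤ) : Measurable (vk θ n k) :=
  (UnitAddTorus.mFourier n).continuous.measurable.comp (Θ.measurable.comp (measurable_φ θ k))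

theorem vk_pr (n : Fin 3 → ℤ) (k : ℤ) (v : ℝ × ℝ × ℝ) : vk θ n k (pr v) =
    ee (n 0 * (v.1 + k) + n 1 * (v.2.1 + k * θ) + n 2 * ((v.2.2 + (k : ℝ) ^ 2 * θ / 2 +
      v.1 * (k * θ)) - (⌊v.1⌋ + k) * (v.2.1 + k * θ))) := by
  unfold vk
  rw [φ_pr, Θ_pr, mFourier_cfun, Int.floor_add_intCast]
  push_cast
  rfl

theorem norm_vk (n : Fin 3 → ℤ) (k : ℤ) (p : Nil) : ‖vk θ n k p‖ = 1 := by
  obtain ⟨v, rfl⟩ := pr_surj p
  rw [vk_pr, norm_ee]

theorem vk_mul_conj (n : Fin 3 → ℤ) (k l : ℤ) (p : Nil) :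
    vk θ n l p * conj (vk θ n k p) =
      ee (n 1 * (l - k) * θ - n 2 * ((l : ℝ) ^ 2 - (k : ℝ) ^ 2) * θ / 2) *
      ((ee (n 2 * (l - k) * θ * rep (base p 0))) * fourier (-(n 2 * (l - k))) (base p 1)) := by
  obtain ⟨v, rfl⟩ := pr_surj p
  rw [vk_pr, vk_pr, conj_ee, ← ee_add, base_pr]
  simp only [Matrix.cons_val_zero, Matrix.cons_val_one]
  rw [rep_coe, fourier_coe, ← ee_add, ← ee_add]
  have h1 : ee (n 0 * (v.1 + l) + n 1 * (v.2.1 + l * θ) + n 2 * ((v.2.2 + (l : ℝ) ^ 2 * θ / 2 +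
      v.1 * (l * θ)) - (⌊v.1⌋ + l) * (v.2.1 + l * θ)) +
      -(n 0 * (v.1 + k) + n 1 * (v.2.1 + k * θ) + n 2 * ((v.2.2 + (k : ℝ) ^ 2 * θ / 2 +
      v.1 * (k * θ)) - (⌊v.1⌋ + k) * (v.2.1 + k * θ)))) =
      ee ((n 1 * (l - k) * θ - n 2 * ((l : ℝ) ^ 2 - (k : ℝ) ^ 2) * θ / 2 +
        (n 2 * (l - k) * θ * Int.fract v.1 +
          ((-(n 2 * (l - k)) : ℤ) : ℝ) * v.2.1)) + ((n 0 * (l - k) : ℤ) : ℝ)) := by
    congr 1
    unfold Int.fract
    push_cast
    ring
  rw [h1, ee_add, ee_int, mul_one]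

theorem vk_orth {ν : Measure Nil} (hb : ν.map base = haar (Fin 2)) {n : Fin 3 → ℤ}
    (hn : n 2 ≠ 0) (k l : ℤ) (hkl : k ≠ l) : ∫ p, vk θ n l p * conj (vk θ n k p) ∂ν = 0 := by
  simp_rw [vk_mul_conj]
  rw [integral_const_mul]
  have hm : (-(n 2 * (l - k))) ≠ 0 := by
    rw [neg_ne_zero]
    exact mul_ne_zero hn (sub_ne_zero.2 (Ne.symm hkl))
  have h1 := fourier_integral_haar_two hm (fun u => ee (n 2 * (l - k) * θ * rep u))
  rw [← hb] at h1
  rw [integral_map measurable_base.aemeasurable] at h1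
  · rw [h1, mul_zero]
  · refine Measurable.aestronglyMeasurable ?_
    refine Measurable.mul ?_ ?_
    · have h2 : Measurable fun w : Fin 2 → 𝕋 => rep (w 0) :=
        measurable_rep.comp (measurable_pi_apply (X := fun _ : Fin 2 => 𝕋) 0)
      unfold ee
      fun_prop
    · exact (fourier _).continuous.measurable.comp
        (measurable_pi_apply (X := fun _ : Fin 2 => 𝕋) 1)

theorem fourier_zero_of_invariant (hθ : Irrational θ) {ν : Measure Nil} [IsProbabilityMeasure ν]
    (hν : ∀ t, ν.map (φ θ t) = ν) {n : Fin 3 → ℤ} (hn : n ≠ 0) :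
    ∫ p, UnitAddTorus.mFourier n (Θ p) ∂ν = 0 := by
  have hb := map_base hθ hν
  by_cases h2 : n 2 = 0
  · have h1 : ∀ p, UnitAddTorus.mFourier n (Θ p) =
        UnitAddTorus.mFourier ![n 0, n 1] (base p) := by
      intro p
      rw [mFourier_apply, mFourier_apply, Fin.prod_univ_three, Fin.prod_univ_two, h2]
      simp [base]
    simp_rw [h1]
    have h3 : (![n 0, n 1] : Fin 2 → ℤ) ≠ 0 := by
      intro h
      apply hn
      have e0 := congrFun h 0
      have e1 := congrFun h 1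
      simp only [Matrix.cons_val_zero, Matrix.cons_val_one, Pi.zero_apply] at e0 e1
      ext i
      fin_cases i
      · exact e0
      · exact e1
      · exact h2
    have h4 := integral_mFourier_haar h3
    rw [← hb, integral_map measurable_base.aemeasurable
      (UnitAddTorus.mFourier _).continuous.measurable.aestronglyMeasurable] at h4
    exact h4
  · have h3 := bessel ν (vk θ n) (fun k => measurable_vk n k) (fun k p => norm_vk n k p)
      (fun k l hkl => vk_orth hb h2 k l hkl) (fun _ => 1) measurable_const (C := 1) (by simp)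
    have h4 : ∀ k : ℤ, ∫ p, (1 : ℂ) * conj (vk θ n k p) ∂ν =
        conj (∫ p, UnitAddTorus.mFourier n (Θ p) ∂ν) := by
      intro k
      simp only [one_mul]
      rw [integral_conj]
      congr 1
      have h5 : ∫ p, UnitAddTorus.mFourier n (Θ p) ∂(ν.map (φ θ k)) =
        ∫ p, UnitAddTorus.mFourier n (Θ p) ∂ν := by rw [hν]
      rw [← h5, integral_map_fun (F := fun p => UnitAddTorus.mFourier n (Θ p)) (measurable_φ θ k)
        ((measurable_mF n).comp Θ.measurable)]
      rfl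
    simp_rw [h4] at h3
    have h6 := tendsto_nhds_unique h3 tendsto_const_nhds
    have h7 := congrArg conj h6
    simpa using h7.symm

theorem unique_ergodic (hθ : Irrational θ) (ν : Measure Nil) [IsProbabilityMeasure ν]
    (hν : ∀ t, ν.map (φ θ t) = ν) : ν = μ := by
  refine nil_ext fun n => ?_
  by_cases hn : n = 0
  · rw [hn]
    simp [UnitAddTorus.mFourier_zero]
  · rw [fourier_zero_of_invariant hθ hν hn]
    rw [fourier_zero_of_invariant hθ (ν := μ) (fun t => map_rtrans_μ _) hn]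

end Pool.Agent.Y316.NF
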