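import Pool.Agent.Y316.NF.Eigen

set_option autoImplicit false

/-!
# The time change is not weakly mixing
-/

open MeasureTheory Filter Topology Set
open scoped ContDiff

namespace Pool.Agent.Y316.NF

/-- the correlation of the half circle with its rotations -/
noncomputable def corr (s : ℝ) : ℝ :=
  h1.real {u : 𝕋 | rep (u + ((-s : ℝ) : 𝕋)) < 1 / 2 ∧ rep u < 1 / 2}

theorem measurable_corr : Measurable corr := by
  have hE : MeasurableSet {x : ℝ × 𝕋 | rep (x.2 + ((-x.1 : ℝ) : 𝕋)) < 1 / 2 ∧ rep x.2 < 1 / 2} := by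
    have a1 : Measurable fun x : ℝ × 𝕋 => rep (x.2 + ((-x.1 : ℝ) : 𝕋)) :=
      measurable_rep.comp (measurable_snd.add (AddCircle.measurable_mk'.comp measurable_fst.neg))
    have a2 : Measurable fun x : ℝ × 𝕋 => rep x.2 := measurable_rep.comp measurable_snd
    exact (measurableSet_lt a1 measurable_const).inter (measurableSet_lt a2 measurable_const)
  exact (measurable_measure_prodMk_left (ν := h1) hE).ennreal_toReal

theorem corr_nonneg (s : ℝ) : 0 ≤ corr s := measureReal_nonneg

theorem corr_le_one (s : ℝ) : corr s ≤ 1 := measureReal_le_one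

theorem half_arc : h1.real {u : 𝕋 | rep u < 1 / 2} = 1 / 2 := by
  have h := haar_arc (a := 0) (b := 1 / 2) le_rfl (by norm_num)
  have e : {u : 𝕋 | 0 ≤ rep u ∧ rep u < 1 / 2} = {u : 𝕋 | rep u < 1 / 2} := by
    ext u
    simp only [mem_ofPred_eq, and_iff_right_iff_imp]
    exact fun _ => (rep_mem u).1
  rw [e] at h
  rw [measureReal_def, h, ENNReal.toReal_ofReal (by norm_num)]
  norm_num

theorem coe_int (n : ℤ) : (((n : ℝ)) : 𝕋) = 0 := by
  rw [AddCircle.coe_eq_zero_iff]
  exact ⟨n, by simp⟩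

theorem corr_nat (n : ℕ) : corr n = 1 / 2 := by
  have h : ((-(n : ℝ) : ℝ) : 𝕋) = 0 := by
    have := coe_int (-(n : ℤ))
    push_cast at this
    rw [← this]
  unfold corr
  simp only [h, add_zero, and_self]
  exact half_arc

theorem corr_periodic : Function.Periodic corr 1 := by
  intro s
  unfold corr
  have h : ((-(s + 1) : ℝ) : 𝕋) = ((-s : ℝ) : 𝕋) := by
    have h2 : (-(s + 1) : ℝ) = -s + ((-1 : ℤ) : ℝ) := by push_cast; ring
    rw [h2, AddCircle.coe_add, coe_int, add_zero]
  rw [h]

theorem corr_ge {s : ℝ} (h0 : 0 ≤ s) (h2 : s ≤ 1 / 8) : 3 / 8 ≤ corr s := by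
  have h := haar_arc (a := s) (b := 1 / 2) h0 (by norm_num)
  have e : {u : 𝕋 | s ≤ rep u ∧ rep u < 1 / 2} ⊆
      {u : 𝕋 | rep (u + ((-s : ℝ) : 𝕋)) < 1 / 2 ∧ rep u < 1 / 2} := by
    rintro u ⟨hu1, hu2⟩
    refine ⟨?_, hu2⟩
    have h3 : u + ((-s : ℝ) : 𝕋) = ((rep u + -s : ℝ) : 𝕋) := by
      rw [AddCircle.coe_add, coe_rep]
    rw [h3, rep_coe, Int.fract_eq_self.2 ⟨by linarith, by linarith⟩]
    linarith
  have h4 : h1.real {u : 𝕋 | s ≤ rep u ∧ rep u < 1 / 2} ≤ corr s := measureReal_mono e
  rw [measureReal_def, h, ENNReal.toReal_ofReal (by linarith)] at h4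
  linarith

/-- the periodic function appearing in weak mixing -/
noncomputable def dev (s : ℝ) : ℝ := |corr s - 1 / 4|

theorem measurable_dev : Measurable dev := (measurable_corr.sub_const _).norm

theorem dev_le (s : ℝ) : |dev s| ≤ 2 := by
  unfold dev
  rw [abs_abs, abs_le]
  have h1 := corr_nonneg s
  have h2 := corr_le_one s
  constructor <;> linarith

theorem dev_int (a b : ℝ) : IntervalIntegrable dev volume a b := by
  refine (intervalIntegrable_const (c := (2 : ℝ))).mono_fun measurable_dev.aestronglyMeasurable ?_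
  refine Eventually.of_forall fun r => ?_
  have h1 := dev_le r
  simpa using h1

theorem dev_periodic : Function.Periodic dev 1 := by
  intro s
  unfold dev
  rw [corr_periodic]

theorem integral_dev_pos : 0 < ∫ s in (0 : ℝ)..1, dev s := by
  have h1 : ∫ s in (0 : ℝ)..(1 / 8), dev s ≤ ∫ s in (0 : ℝ)..1, dev s := by
    refine intervalIntegral.integral_mono_interval le_rfl (by norm_num) (by norm_num) ?_
      (dev_int 0 1)
    exact Eventually.of_forall fun s => abs_nonneg _
  have h2 : ∫ s in (0 : ℝ)..(1 / 8), (1 / 8 : ℝ) ≤ ∫ s in (0 : ℝ)..(1 / 8), dev s := by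
    refine intervalIntegral.integral_mono_on (by norm_num) (by simp) (dev_int _ _) ?_
    intro s hs
    have h3 := corr_ge hs.1 hs.2
    unfold dev
    refine le_trans ?_ (le_abs_self _)
    linarith
  rw [intervalIntegral.integral_const] at h2
  norm_num at h2
  linarith

theorem integral_dev_nat (n : ℕ) : ∫ s in (0 : ℝ)..n, dev s = n * ∫ s in (0 : ℝ)..1, dev s := by
  have := dev_periodic.intervalIntegral_add_zsmul_eq (n : ℤ) 0 dev_int
  simpa using this

namespace Dat

variable {θ : ℝ} (D : Dat θ)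

/-- the test set -/
def E : Set Nil := {p | rep (D.F p) < 1 / 2}

theorem measurableSet_E : MeasurableSet D.E :=
  measurableSet_lt (measurable_rep.comp D.measurable_F) measurable_const

theorem ν_E : D.ν.real D.E = 1 / 2 := by
  rw [← half_arc, ← D.map_F, measureReal_def, measureReal_def,
    Measure.map_apply D.measurable_F (measurableSet_lt measurable_rep measurable_const)]
  rfl

theorem ν_corr (s : ℝ) : D.ν.real (D.ψ s '' D.E ∩ D.E) = corr s := by
  unfold corr
  have hm : MeasurableSet {u : 𝕋 | rep (u + ((-s : ℝ) : 𝕋)) < 1 / 2 ∧ rep u < 1 / 2} :=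
    (measurableSet_lt (measurable_rep.comp (measurable_add_const _)) measurable_const).inter
      (measurableSet_lt measurable_rep measurable_const)
  rw [← D.map_F, measureReal_def, measureReal_def, Measure.map_apply D.measurable_F hm]
  congr 1
  rw [D.image_ψ]
  refine measure_congr ?_
  filter_upwards [D.F_ψ (-s)] with p hp
  apply propext
  show (rep (D.F (D.ψ (-s) p)) < 1 / 2 ∧ rep (D.F p) < 1 / 2) ↔ _
  rw [hp]
  rfl

theorem not_mixing : ¬ Mixing D.ν D.ψ := by
  intro h
  have h2 := (h D.E D.E D.measurableSet_E D.measurableSet_E).comp tendsto_natCast_atTop_atTop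
  have h3 : ((fun t : ℝ => D.ν.real (D.ψ t '' D.E ∩ D.E)) ∘ fun n : ℕ => (n : ℝ)) =
      fun _ => 1 / 2 := by
    funext n
    rw [Function.comp_apply, D.ν_corr, corr_nat]
  rw [h3, D.ν_E] at h2
  have h4 := tendsto_nhds_unique h2 tendsto_const_nhds
  norm_num at h4

theorem not_weaklyMixing : ¬ WeaklyMixing D.ν D.ψ := by
  intro h
  have h2 := (h D.E D.E D.measurableSet_E D.measurableSet_E).comp tendsto_natCast_atTop_atTop
  have h3 : ∀ s : ℝ, |D.ν.real (D.ψ s '' D.E ∩ D.E) - D.ν.real D.E * D.ν.real D.E| = dev s := by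
    intro s
    rw [D.ν_corr, D.ν_E]
    unfold dev
    norm_num
  simp_rw [h3] at h2
  have h4 : Tendsto (fun _ : ℕ => ∫ s in (0 : ℝ)..1, dev s) atTop (𝓝 0) := by
    refine h2.congr' ?_
    filter_upwards [eventually_ge_atTop 1] with n hn
    have hn' : (n : ℝ) ≠ 0 := by
      have : n ≠ 0 := by omega
      exact_mod_cast this
    rw [Function.comp_apply, integral_dev_nat, one_div, inv_mul_cancel_left₀ hn']
  have h5 := tendsto_nhds_unique h4 tendsto_const_nhds
  exact integral_dev_pos.ne h5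

end Dat

end Pool.Agent.Y316.NF
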