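import Pool.Agent.Y316.NF.Four

set_option autoImplicit false

/-!
# The nilflow, the Haar measure of the nilmanifold, unique ergodicity
-/

open MeasureTheory Filter Topology Set

namespace Pool.Agent.Y316.NF

open Heis

theorem rtrans_coset (g h : Heis) : rtrans h (coset g) = coset (g * h) := rfl

theorem rtrans_pr (v : ℝ × ℝ × ℝ) (h : Heis) :
    rtrans h (pr v) = pr (v.1 + h.x, v.2.1 + h.y, v.2.2 + h.z + v.1 * h.y) := rfl

theorem rtrans_mul (g h : Heis) (p : Nil) : rtrans h (rtrans g p) = rtrans (g * h) p := by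
  obtain ⟨k, rfl⟩ := coset_surj p
  simp only [rtrans_coset, mul_assoc]

theorem rtrans_one (p : Nil) : rtrans 1 p = p := by
  obtain ⟨k, rfl⟩ := coset_surj p
  simp only [rtrans_coset, mul_one]

theorem measurable_rtrans (h : Heis) : Measurable (rtrans h) := by
  refine measurable_of_lift ?_
  have : rtrans h ∘ pr = pr ∘ fun v : ℝ × ℝ × ℝ =>
      ((v.1 + h.x, v.2.1 + h.y, v.2.2 + h.z + v.1 * h.y) : ℝ × ℝ × ℝ) := rfl
  rw [this]
  exact measurable_coset_toH.comp (by fun_prop)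

/-- the nilflow of `(1, θ, 0)` -/
noncomputable abbrev φ (θ t : ℝ) : Nil → Nil := nilflow 1 θ 0 t

theorem φ_pr (θ t : ℝ) (v : ℝ × ℝ × ℝ) : φ θ t (pr v) =
    pr (v.1 + t, v.2.1 + t * θ, v.2.2 + t ^ 2 * θ / 2 + v.1 * (t * θ)) := by
  unfold φ nilflow
  rw [rtrans_pr]
  unfold expo
  simp only [mul_one, mul_zero, zero_add]
  congr 4
  ring

theorem φ_add (θ s t : ℝ) (p : Nil) : φ θ (s + t) p = φ θ s (φ θ t p) := by
  unfold φ nilflow
  rw [rtrans_mul]
  congr 1
  unfold expo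
  apply Heis.ext
  · simp only [mul_x]; ring
  · simp only [mul_y]; ring
  · simp only [mul_z]; ring

theorem φ_zero (θ : ℝ) (p : Nil) : φ θ 0 p = p := by
  obtain ⟨v, rfl⟩ := pr_surj p
  rw [φ_pr]
  congr 1
  refine Prod.ext ?_ (Prod.ext ?_ ?_) <;> simp

theorem measurable_φ (θ t : ℝ) : Measurable (φ θ t) := measurable_rtrans _

/-- the measurable section -/
noncomputable def sec (p : Nil) : ℝ × ℝ × ℝ := sv (Θ p)

theorem measurable_sec : Measurable sec := measurable_sv.comp Θ.measurable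

theorem pr_sec (p : Nil) : pr (sec p) = p := Θ.symm_apply_apply p

theorem measurable_φ_joint (θ : ℝ) : Measurable fun x : ℝ × Nil => φ θ x.1 x.2 := by
  have h : (fun x : ℝ × Nil => φ θ x.1 x.2) = fun x => pr ((sec x.2).1 + x.1,
      (sec x.2).2.1 + x.1 * θ,
      (sec x.2).2.2 + x.1 ^ 2 * θ / 2 + (sec x.2).1 * (x.1 * θ)) := by
    funext x
    rw [← φ_pr, pr_sec]
  rw [h]
  refine measurable_coset_toH.comp ?_
  have h1 : Measurable fun x : ℝ × Nil => sec x.2 := measurable_sec.comp measurable_snd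
  exact (h1.fst.add measurable_fst).prodMk ((h1.snd.fst.add (measurable_fst.mul_const θ)).prodMk
    ((h1.snd.snd.add (((measurable_fst.pow_const 2).mul_const θ).div_const 2)).add
      (h1.fst.mul (measurable_fst.mul_const θ))))

/-- normalised Haar measure of the nilmanifold -/
noncomputable def μ : Measure Nil := (haar (Fin 3)).map Θ.symm

instance : IsProbabilityMeasure μ :=
  Measure.isProbabilityMeasure_map Θ.symm.measurable.aemeasurable

theorem map_Θ_μ : μ.map Θ = haar (Fin 3) := by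
  unfold μ
  rw [MeasurableEquiv.map_map_symm]

theorem integral_μ (F : Nil → ℂ) : ∫ p, F p ∂μ = ∫ u, F (Θ.symm u) ∂(haar (Fin 3)) := by
  unfold μ
  rw [integral_map_equiv]

/-- equality of measures on the nilmanifold via Fourier coefficients -/
theorem nil_ext {P Q : Measure Nil} [IsFiniteMeasure P] [IsFiniteMeasure Q]
    (h : ∀ n : Fin 3 → ℤ, ∫ p, UnitAddTorus.mFourier n (Θ p) ∂P =
      ∫ p, UnitAddTorus.mFourier n (Θ p) ∂Q) : P = Q := by
  have h1 : P.map Θ = Q.map Θ := by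
    refine torus_ext fun n => ?_
    rw [integral_map_equiv, integral_map_equiv]
    exact h n
  have h2 := congrArg (Measure.map Θ.symm) h1
  rwa [MeasurableEquiv.map_symm_map, MeasurableEquiv.map_symm_map] at h2

theorem mFourier_cfun (n : Fin 3 → ℤ) (v : ℝ × ℝ × ℝ) : UnitAddTorus.mFourier n (cfun v) =
    ee (n 0 * v.1 + n 1 * v.2.1 + n 2 * (v.2.2 - ⌊v.1⌋ * v.2.1)) := by
  rw [mFourier_apply, Fin.prod_univ_three]
  unfold cfun
  simp only [Matrix.cons_val_zero, Matrix.cons_val_one, Matrix.cons_val]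
  rw [fourier_coe, fourier_coe, fourier_coe, ee_add, ee_add]

/-- a central translation -/
theorem Θ_central (s : ℝ) (p : Nil) : Θ (rtrans ⟨0, 0, s⟩ p) = Θ p + ![0, 0, (s : 𝕋)] := by
  obtain ⟨v, rfl⟩ := pr_surj p
  rw [rtrans_pr, Θ_pr, Θ_pr]
  unfold cfun
  ext i
  fin_cases i
  · simp
  · simp
  · simp only [add_zero, mul_zero]
    show (((v.2.2 + s - ⌊v.1⌋ * v.2.1 : ℝ)) : 𝕋) = ((v.2.2 - ⌊v.1⌋ * v.2.1 : ℝ) : 𝕋) + (s : 𝕋)
    rw [← AddCircle.coe_add]
    congr 1
    ring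

theorem integral_sv_fourier {n : Fin 3 → ℤ} (hn : n 2 ≠ 0) (κ : 𝕋3 → ℂ)
    (hκ : ∀ (s : 𝕋) (u : 𝕋3), κ (![0, 0, s] + u) = κ u) :
    ∫ u, UnitAddTorus.mFourier n u * κ u ∂(haar (Fin 3)) = 0 := by
  have hni : (n 2 : ℝ) ≠ 0 := by exact_mod_cast hn
  refine integral_eq_zero_of_translate ![0, 0, (((1 / 2) / n 2 : ℝ) : 𝕋)] (c := -1)
    (by norm_num) fun x => ?_
  rw [mFourier_add_apply, hκ]
  have : UnitAddTorus.mFourier n ![0, 0, (((1 / 2) / n 2 : ℝ) : 𝕋)] = -1 := by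
    rw [mFourier_apply, Fin.prod_univ_three]
    simp only [Matrix.cons_val_zero, Matrix.cons_val_one, Matrix.cons_val]
    rw [fourier_coe, mul_div_cancel₀ _ hni, ee_half]
    simp
  rw [this]
  ring

/-- the third coordinate of a right translation -/
theorem Θ_rtrans (h : Heis) (u : 𝕋3) : Θ (rtrans h (Θ.symm u)) =
    ![u 0 + (h.x : 𝕋), u 1 + (h.y : 𝕋), u 2 + ((h.z + rep (u 0) * h.y -
      ⌊rep (u 0) + h.x⌋ * (rep (u 1) + h.y) : ℝ) : 𝕋)] := by
  rw [Θ_symm, rtrans_pr, Θ_pr]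
  unfold cfun sv
  simp only
  ext i
  fin_cases i
  · show ((rep (u 0) + h.x : ℝ) : 𝕋) = u 0 + (h.x : 𝕋)
    rw [AddCircle.coe_add, coe_rep]
  · show ((rep (u 1) + h.y : ℝ) : 𝕋) = u 1 + (h.y : 𝕋)
    rw [AddCircle.coe_add, coe_rep]
  · show ((rep (u 2) + h.z + rep (u 0) * h.y - ⌊rep (u 0) + h.x⌋ * (rep (u 1) + h.y) : ℝ) : 𝕋) =
      u 2 + ((h.z + rep (u 0) * h.y - ⌊rep (u 0) + h.x⌋ * (rep (u 1) + h.y) : ℝ) : 𝕋)
    conv_rhs => rw [← coe_rep (u 2)]
    rw [← AddCircle.coe_add]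
    congr 1
    ring

theorem map_rtrans_μ (h : Heis) : μ.map (rtrans h) = μ := by
  have hm : Measurable (rtrans h) := measurable_rtrans h
  have : IsProbabilityMeasure (μ.map (rtrans h)) :=
    Measure.isProbabilityMeasure_map hm.aemeasurable
  refine nil_ext fun n => ?_
  have hmeas : AEStronglyMeasurable (fun p => UnitAddTorus.mFourier n (Θ p)) (μ.map (rtrans h)) :=
    (((UnitAddTorus.mFourier n).continuous.measurable).comp Θ.measurable).aestronglyMeasurable
  rw [integral_map hm.aemeasurable hmeas, integral_μ, integral_μ]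
  simp only [MeasurableEquiv.apply_symm_apply]
  have key : ∀ u : 𝕋3, UnitAddTorus.mFourier n (Θ (rtrans h (Θ.symm u))) =
      UnitAddTorus.mFourier n u * (UnitAddTorus.mFourier n ![(h.x : 𝕋), (h.y : 𝕋),
        ((h.z + rep (u 0) * h.y - ⌊rep (u 0) + h.x⌋ * (rep (u 1) + h.y) : ℝ) : 𝕋)]) := by
    intro u
    rw [Θ_rtrans, ← mFourier_add_apply]
    congr 1
    ext i
    fin_cases i <;> rfl
  simp_rw [key]
  by_cases h2 : n 2 = 0
  · have h3 : ∀ u : 𝕋3, UnitAddTorus.mFourier n ![(h.x : 𝕋), (h.y : 𝕋),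
        ((h.z + rep (u 0) * h.y - ⌊rep (u 0) + h.x⌋ * (rep (u 1) + h.y) : ℝ) : 𝕋)] =
        ee (n 0 * h.x + n 1 * h.y) := by
      intro u
      rw [mFourier_apply, Fin.prod_univ_three]
      simp only [Matrix.cons_val_zero, Matrix.cons_val_one, Matrix.cons_val, h2, fourier_coe]
      rw [ee_add]
      simp [ee_zero]
    simp_rw [h3]
    rw [integral_mul_const]
    by_cases hn : n = 0
    · rw [hn]
      simp [ee_zero]
    · rw [integral_mFourier_haar hn, zero_mul]
  · rw [integral_sv_fourier h2]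
    · rw [integral_mFourier_haar]
      intro h0
      exact h2 (by rw [h0]; rfl)
    · intro s u
      simp

end Pool.Agent.Y316.NF
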