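import Pool.Agent.Y316.NF.Space

set_option autoImplicit false

/-!
# Uniqueness of Fourier coefficients of measures, and the Haar measure of the torus
-/

open MeasureTheory Filter Topology Set

namespace Pool.Agent.Y316.NF

section general

variable {X : Type*} [TopologicalSpace X] [CompactSpace X] [MeasurableSpace X] [BorelSpace X]

theorem integrable_cont (P : Measure X) [IsFiniteMeasure P] (f : C(X, ℂ)) :
    Integrable (fun x => f x) P :=
  (BoundedContinuousFunction.mkOfCompact f).integrable P

/-- integration as a continuous linear functional -/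
noncomputable def intL (P : Measure X) [IsFiniteMeasure P] : C(X, ℂ) →L[ℂ] ℂ :=
  LinearMap.mkContinuous
    { toFun := fun f => ∫ x, f x ∂P
      map_add' := fun f g => by
        simp only [ContinuousMap.add_apply]
        exact integral_add (integrable_cont P f) (integrable_cont P g)
      map_smul' := fun c f => by
        simp only [ContinuousMap.smul_apply, RingHom.id_apply]
        exact integral_smul c _ }
    (P.real univ) (fun f => by
      have h := norm_integral_le_of_norm_le_const (μ := P) (f := fun x => f x) (C := ‖f‖)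
        (Eventually.of_forall fun x => f.norm_coe_le_norm x)
      rw [mul_comm] at h
      exact h)

theorem intL_apply (P : Measure X) [IsFiniteMeasure P] (f : C(X, ℂ)) :
    intL P f = ∫ x, f x ∂P := rfl

theorem measure_ext_of_span [HasOuterApproxClosed X] {P Q : Measure X} [IsFiniteMeasure P]
    [IsFiniteMeasure Q] (S : Set C(X, ℂ)) (hS : (Submodule.span ℂ S).topologicalClosure = ⊤)
    (h : ∀ f ∈ S, ∫ x, f x ∂P = ∫ x, f x ∂Q) : P = Q := by
  have h1 : ∀ f : C(X, ℂ), intL P f = intL Q f := by
    have h2 : (Submodule.span ℂ S).topologicalClosure ≤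
        LinearMap.ker ((intL P - intL Q : C(X, ℂ) →L[ℂ] ℂ) : C(X, ℂ) →ₗ[ℂ] ℂ) := by
      apply Submodule.topologicalClosure_minimal
      · rw [Submodule.span_le]
        intro f hf
        simp only [SetLike.mem_coe, LinearMap.mem_ker, ContinuousLinearMap.coe_coe,
          sub_apply, intL_apply, h f hf, sub_self]
      · exact (intL P - intL Q).isClosed_ker
    intro f
    have h3 : f ∈ (Submodule.span ℂ S).topologicalClosure := by rw [hS]; trivial
    have h4 := h2 h3
    simp only [LinearMap.mem_ker, ContinuousLinearMap.coe_coe,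
      sub_apply] at h4
    exact sub_eq_zero.1 h4
  refine ext_of_forall_integral_eq_of_IsFiniteMeasure fun f => ?_
  have h5 := h1 ⟨fun x => ((f x : ℝ) : ℂ), Complex.continuous_ofReal.comp f.continuous⟩
  rw [intL_apply, intL_apply] at h5
  simp only [ContinuousMap.coe_mk] at h5
  rw [integral_complex_ofReal, integral_complex_ofReal] at h5
  exact_mod_cast h5

end general

/-- Haar measure on the torus -/
noncomputable def haar (d : Type*) [Fintype d] : Measure (d → 𝕋) :=
  Measure.pi fun _ => AddCircle.haarAddCircle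

section torus

variable {d : Type} [Fintype d]

instance : IsProbabilityMeasure (haar d) := by
  unfold haar
  infer_instance

instance : (haar d).IsAddLeftInvariant := by
  unfold haar
  infer_instance

theorem torus_ext {P Q : Measure (d → 𝕋)} [IsFiniteMeasure P] [IsFiniteMeasure Q]
    (h : ∀ n : d → ℤ, ∫ x, UnitAddTorus.mFourier n x ∂P = ∫ x, UnitAddTorus.mFourier n x ∂Q) :
    P = Q := by
  refine measure_ext_of_span (range (UnitAddTorus.mFourier (d := d)))
    UnitAddTorus.span_mFourier_closure_eq_top ?_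
  rintro _ ⟨n, rfl⟩
  exact h n

/-- the integral of a function multiplied by a constant `≠ 1` under a translation vanishes -/
theorem integral_eq_zero_of_translate {F : (d → 𝕋) → ℂ} (a : d → 𝕋) {c : ℂ} (hc : c ≠ 1)
    (h : ∀ x, F (a + x) = c * F x) : ∫ x, F x ∂(haar d) = 0 := by
  have h1 : ∫ x, F (a + x) ∂(haar d) = ∫ x, F x ∂(haar d) := integral_add_left_eq_self F a
  simp_rw [h] at h1
  rw [integral_const_mul] at h1
  have h2 : (c - 1) * ∫ x, F x ∂(haar d) = 0 := by rw [sub_mul, h1]; ring
  rcases mul_eq_zero.1 h2 with h3 | h3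
  · exact (hc (sub_eq_zero.1 h3)).elim
  · exact h3

/-- the exponential `e (x) = exp (2 π i x)` -/
noncomputable def ee (x : ℝ) : ℂ := Complex.exp (2 * Real.pi * Complex.I * x)

theorem ee_add (x y : ℝ) : ee (x + y) = ee x * ee y := by
  unfold ee
  rw [← Complex.exp_add]
  congr 1
  push_cast
  ring

theorem ee_zero : ee 0 = 1 := by
  unfold ee
  simp

theorem norm_ee (x : ℝ) : ‖ee x‖ = 1 := by
  unfold ee
  rw [show (2 * Real.pi * Complex.I * x : ℂ) = ((2 * Real.pi * x : ℝ) : ℂ) * Complex.I by
    push_cast; ring]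
  exact Complex.norm_exp_ofReal_mul_I _

theorem ee_half : ee (1 / 2) = -1 := by
  unfold ee
  rw [show (2 * Real.pi * Complex.I * ((1 / 2 : ℝ) : ℂ) : ℂ) = Real.pi * Complex.I by
    push_cast; ring]
  exact Complex.exp_pi_mul_I

theorem fourier_coe (n : ℤ) (x : ℝ) : fourier n (x : 𝕋) = ee (n * x) := by
  rw [fourier_coe_apply]
  unfold ee
  congr 1
  push_cast
  ring

theorem ee_int (n : ℤ) : ee n = 1 := by
  have h := fourier_coe n 1
  rw [mul_one] at h
  rw [← h]
  have : ((1 : ℝ) : 𝕋) = 0 := AddCircle.coe_period 1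
  rw [this]
  simp

theorem mFourier_apply (n : d → ℤ) (x : d → 𝕋) :
    UnitAddTorus.mFourier n x = ∏ i, fourier (n i) (x i) := rfl

theorem mFourier_add_apply (n : d → ℤ) (x y : d → 𝕋) :
    UnitAddTorus.mFourier n (x + y) = UnitAddTorus.mFourier n x * UnitAddTorus.mFourier n y := by
  rw [mFourier_apply, mFourier_apply, mFourier_apply, ← Finset.prod_mul_distrib]
  refine Finset.prod_congr rfl fun i _ => ?_
  rw [Pi.add_apply]
  simp only [fourier_apply, smul_add, AddCircle.toCircle_add, Circle.coe_mul]

theorem integral_mFourier_haar [DecidableEq d] {n : d → ℤ} (hn : n ≠ 0) :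
    ∫ x, UnitAddTorus.mFourier n x ∂(haar d) = 0 := by
  obtain ⟨i, hi⟩ : ∃ i, n i ≠ 0 := by
    by_contra h
    push Not at h
    exact hn (funext h)
  have hni : (n i : ℝ) ≠ 0 := by exact_mod_cast hi
  refine integral_eq_zero_of_translate (Pi.single i (((1 / 2) / n i : ℝ) : 𝕋)) (c := -1)
    (by norm_num) fun x => ?_
  rw [mFourier_add_apply]
  congr 1
  rw [mFourier_apply, Finset.prod_eq_single i]
  · rw [Pi.single_eq_same, fourier_coe, mul_div_cancel₀ _ hni]
    exact ee_half
  · intro j _ hj
    rw [Pi.single_eq_of_ne hj]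
    simp
  · intro h
    exact (h (Finset.mem_univ i)).elim

theorem integral_mFourier_zero (P : Measure (d → 𝕋)) [IsProbabilityMeasure P] :
    ∫ x, UnitAddTorus.mFourier (0 : d → ℤ) x ∂P = 1 := by
  rw [UnitAddTorus.mFourier_zero]
  simp

theorem eq_haar [DecidableEq d] {P : Measure (d → 𝕋)} [IsProbabilityMeasure P]
    (h : ∀ n : d → ℤ, n ≠ 0 → ∫ x, UnitAddTorus.mFourier n x ∂P = 0) : P = haar d := by
  refine torus_ext fun n => ?_
  by_cases hn : n = 0
  · rw [hn, integral_mFourier_zero, integral_mFourier_zero]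
  · rw [h n hn, integral_mFourier_haar hn]

end torus

/-- uniqueness on the circle -/
theorem circle_eq_haar {P : Measure 𝕋} [IsProbabilityMeasure P]
    (h : ∀ n : ℤ, n ≠ 0 → ∫ x, fourier n x ∂P = 0) : P = AddCircle.haarAddCircle := by
  refine measure_ext_of_span (range (fourier (T := (1 : ℝ)))) span_fourier_closure_eq_top ?_
  rintro _ ⟨n, rfl⟩
  by_cases hn : n = 0
  · rw [hn]
    simp
  · rw [h n hn]
    have h1 : ∫ x, fourier n ((((1 / 2) / n : ℝ) : 𝕋) + x) ∂(AddCircle.haarAddCircle (T := (1 : ℝ))) =
        ∫ x, fourier n x ∂AddCircle.haarAddCircle := integral_add_left_eq_self _ _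
    have hni : (n : ℝ) ≠ 0 := by exact_mod_cast hn
    have h2 : ∀ x : 𝕋, fourier n ((((1 / 2) / n : ℝ) : 𝕋) + x) = -1 * fourier n x := by
      intro x
      have h3 : fourier n ((((1 / 2) / n : ℝ) : 𝕋) + x) =
          fourier n (((1 / 2) / n : ℝ) : 𝕋) * fourier n x := by
        simp only [fourier_apply, smul_add, AddCircle.toCircle_add, Circle.coe_mul]
      rw [h3, fourier_coe, mul_div_cancel₀ _ hni, ee_half]
    simp_rw [h2] at h1
    rw [integral_const_mul] at h1
    have h4 : (2 : ℂ) * ∫ x, fourier n x ∂(AddCircle.haarAddCircle (T := (1 : ℝ))) = 0 := by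
      linear_combination (-1 : ℂ) * h1
    rcases mul_eq_zero.1 h4 with h5 | h5
    · norm_num at h5
    · exact h5.symm

end Pool.Agent.Y316.NF
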