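import Pool.Agent.Y316.NF.TimeChange

set_option autoImplicit false

/-!
# The time change preserves `α μ`
-/

open MeasureTheory Filter Topology Set
open scoped ContDiff

namespace Pool.Agent.Y316.NF

namespace Dat

variable {θ : ℝ} (D : Dat θ)

theorem orbit_subst (p : Nil) (t : ℝ) {S : ℝ} (hS : 0 ≤ S) (G : ℝ → ℝ) :
    ∫ s in (0 : ℝ)..S, G (D.R p s + t) * D.α (φ θ s p) = ∫ r in t..(D.R p S + t), G r := by
  have h1 := integral_image_eq_integral_abs_deriv_smul (s := Ioc 0 S)
    (f := fun s => D.R p s + t) (f' := fun s => D.α (φ θ s p)) measurableSet_Ioc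
    (fun s _ => ((D.hasDerivAt_R p s).add_const t).hasDerivWithinAt)
    (fun s _ s' _ h => (D.strictMono_R p).injective (add_right_cancel h)) G
  have h2 : (fun s => D.R p s + t) '' Ioc 0 S = Ioc t (D.R p S + t) := by
    have := ((D.iso p).trans (OrderIso.addRight t)).image_Ioc 0 S
    have e : (⇑((D.iso p).trans (OrderIso.addRight t))) = fun s => D.R p s + t := rfl
    rw [e] at this
    rw [this]
    simp only [D.R_zero, zero_add]
  rw [h2] at h1
  have h3 : t ≤ D.R p S + t := by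
    have := D.R_ge p hS
    nlinarith
  rw [intervalIntegral.integral_of_le hS, intervalIntegral.integral_of_le h3, h1]
  refine integral_congr_ae (Eventually.of_forall fun s => ?_)
  simp only [smul_eq_mul, abs_of_pos (D.α_pos _)]
  ring

theorem orbit_key (p : Nil) (t : ℝ) {S : ℝ} (hS : 0 ≤ S) (F : Nil → ℝ) :
    ∫ s in (0 : ℝ)..S, F (D.ψ t (φ θ s p)) * D.α (φ θ s p) =
      ∫ r in t..(D.R p S + t), F (D.ψ r p) := by
  rw [← D.orbit_subst p t hS fun r => F (D.ψ r p)]
  refine intervalIntegral.integral_congr fun s _ => ?_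
  simp only [D.ψ_φ]

theorem shift_le {G : ℝ → ℝ} (hG : Measurable G) {C : ℝ} (hC : ∀ r, |G r| ≤ C) (t R : ℝ) :
    |(∫ r in t..(R + t), G r) - ∫ r in (0 : ℝ)..R, G r| ≤ 2 * C * |t| := by
  have hi : ∀ a b : ℝ, IntervalIntegrable G volume a b := by
    intro a b
    refine (intervalIntegrable_const (c := C)).mono_fun hG.aestronglyMeasurable ?_
    refine Eventually.of_forall fun r => ?_
    have h1 := hC r
    have h2 : 0 ≤ C := (abs_nonneg _).trans h1
    simpa only [Real.norm_eq_abs, abs_of_nonneg h2] using h1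
  have h1 : (∫ r in t..(R + t), G r) - ∫ r in (0 : ℝ)..R, G r =
      (∫ r in R..(R + t), G r) - ∫ r in (0 : ℝ)..t, G r := by
    have e1 := intervalIntegral.integral_add_adjacent_intervals (hi 0 t) (hi t (R + t))
    have e2 := intervalIntegral.integral_add_adjacent_intervals (hi 0 R) (hi R (R + t))
    linarith
  rw [h1]
  have h2 : |∫ r in R..(R + t), G r| ≤ C * |t| := by
    have := intervalIntegral.norm_integral_le_of_norm_le_const (a := R) (b := R + t) (f := G)
      (C := C) fun r _ => hC r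
    rwa [add_sub_cancel_left] at this
  have h3 : |∫ r in (0 : ℝ)..t, G r| ≤ C * |t| := by
    have := intervalIntegral.norm_integral_le_of_norm_le_const (a := 0) (b := t) (f := G)
      (C := C) fun r _ => hC r
    rwa [sub_zero] at this
  have h4 := abs_sub (∫ r in R..(R + t), G r) (∫ r in (0 : ℝ)..t, G r)
  linarith

theorem measurable_joint {F : Nil → ℝ} (hF : Measurable F) (t : ℝ) :
    Measurable fun x : ℝ × Nil => F (D.ψ t (φ θ x.1 x.2)) * D.α (φ θ x.1 x.2) :=
  (hF.comp ((D.measurable_ψ t).comp (measurable_φ_joint θ))).mul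
    (D.measurable_α.comp (measurable_φ_joint θ))

theorem bound_joint {F : Nil → ℝ} {C : ℝ} (hC : ∀ p, |F p| ≤ C) (t : ℝ) (q : Nil) :
    |F (D.ψ t q) * D.α q| ≤ C * (5 / 4) := by
  rw [abs_mul, abs_of_pos (D.α_pos q)]
  exact mul_le_mul (hC _) (D.α_le q) (D.α_pos q).le ((abs_nonneg _).trans (hC q))

theorem integral_φ_real (t : ℝ) {F : Nil → ℝ} (hF : Measurable F) :
    ∫ p, F (φ θ t p) ∂μ = ∫ p, F p ∂μ := by
  have h : μ.map (φ θ t) = μ := map_rtrans_μ _
  conv_rhs => rw [← h]
  rw [integral_map (measurable_φ θ t).aemeasurable hF.aestronglyMeasurable]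

theorem average (t : ℝ) {S : ℝ} (hS : 0 ≤ S) {F : Nil → ℝ} (hF : Measurable F) {C : ℝ}
    (hC : ∀ p, |F p| ≤ C) :
    ∫ p, (∫ s in (0 : ℝ)..S, F (D.ψ t (φ θ s p)) * D.α (φ θ s p)) ∂μ =
      S * ∫ p, F (D.ψ t p) * D.α p ∂μ := by
  have h1 : ∀ p, (∫ s in (0 : ℝ)..S, F (D.ψ t (φ θ s p)) * D.α (φ θ s p)) =
      ∫ s, F (D.ψ t (φ θ s p)) * D.α (φ θ s p) ∂(volume.restrict (Ioc 0 S)) := fun p =>
    intervalIntegral.integral_of_le hS
  simp_rw [h1]
  have hfin : IsFiniteMeasure (volume.restrict (Ioc (0 : ℝ) S)) := ⟨by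
    rw [Measure.restrict_apply_univ, Real.volume_Ioc]
    exact ENNReal.ofReal_lt_top⟩
  rw [integral_integral_swap]
  · have h2 : ∀ s, ∫ p, F (D.ψ t (φ θ s p)) * D.α (φ θ s p) ∂μ =
        ∫ p, F (D.ψ t p) * D.α p ∂μ := fun s =>
      integral_φ_real s ((hF.comp (D.measurable_ψ t)).mul D.measurable_α)
    simp_rw [h2]
    rw [integral_const]
    simp [hS]
  · refine Integrable.of_bound (C := C * (5 / 4)) ?_ (Eventually.of_forall fun x => ?_)
    · exact ((D.measurable_joint hF t).comp measurable_swap).aestronglyMeasurable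
    · exact D.bound_joint hC t _

theorem integral_ψ (t : ℝ) {F : Nil → ℝ} (hF : Measurable F) {C : ℝ}
    (hC : ∀ p, |F p| ≤ C) : ∫ p, F (D.ψ t p) * D.α p ∂μ = ∫ p, F p * D.α p ∂μ := by
  have key : ∀ S : ℝ, 0 ≤ S → |S * (∫ p, F (D.ψ t p) * D.α p ∂μ) -
      S * ∫ p, F p * D.α p ∂μ| ≤ 2 * C * |t| := by
    intro S hS
    have h0 : ∫ p, F p * D.α p ∂μ = ∫ p, F (D.ψ 0 p) * D.α p ∂μ := by
      simp_rw [D.ψ_zero]
    rw [h0, ← D.average t hS hF hC, ← D.average 0 hS hF hC]
    simp_rw [D.orbit_key _ _ hS F]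
    have hI : ∀ t, Integrable (fun p => ∫ r in t..(D.R p S + t), F (D.ψ r p)) μ := by
      intro t
      simp_rw [← D.orbit_key _ t hS F]
      refine Integrable.of_bound (C := C * (5 / 4) * |S - 0|) ?_ (Eventually.of_forall fun p => ?_)
      · simp only [intervalIntegral]
        have h := (D.measurable_joint hF t).stronglyMeasurable
        exact (StronglyMeasurable.sub (StronglyMeasurable.integral_prod_left h)
          (StronglyMeasurable.integral_prod_left h)).aestronglyMeasurable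
      · exact intervalIntegral.norm_integral_le_of_norm_le_const fun s _ =>
          D.bound_joint hC t _
    rw [← integral_sub (hI t) (hI 0)]
    have h5 : ∀ p, ‖(∫ r in t..(D.R p S + t), F (D.ψ r p)) -
        ∫ r in (0 : ℝ)..(D.R p S + 0), F (D.ψ r p)‖ ≤ 2 * C * |t| := by
      intro p
      rw [add_zero]
      exact shift_le (hF.comp (D.measurable_ψ_orbit p)) (fun r => hC _) t _
    have h6 := norm_integral_le_of_norm_le_const (μ := μ) (Eventually.of_forall h5)
    simpa using h6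
  by_contra hne
  have hpos : 0 < |(∫ p, F (D.ψ t p) * D.α p ∂μ) - ∫ p, F p * D.α p ∂μ| :=
    abs_pos.2 (sub_ne_zero.2 hne)
  have hC0 : 0 ≤ C := (abs_nonneg _).trans (hC (pr (0, 0, 0)))
  have h1 := key ((2 * C * |t| + 1) / |(∫ p, F (D.ψ t p) * D.α p ∂μ) - ∫ p, F p * D.α p ∂μ|)
    (by positivity)
  rw [← mul_sub, abs_mul, abs_div, abs_abs, div_mul_cancel₀ _ hpos.ne',
    abs_of_nonneg (by positivity)] at h1
  linarith

/-- the unnormalised invariant measure -/
noncomputable def κ : Measure Nil := μ.withDensity (fun p => ENNReal.ofReal (D.α p))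

theorem κ_apply {E : Set Nil} (hE : MeasurableSet E) :
    D.κ E = ENNReal.ofReal (∫ p, E.indicator (fun _ => (1 : ℝ)) p * D.α p ∂μ) := by
  have hm : Measurable fun p => E.indicator (fun _ => (1 : ℝ)) p * D.α p :=
    (measurable_const.indicator hE).mul D.measurable_α
  have h0 : ∀ p, 0 ≤ E.indicator (fun _ => (1 : ℝ)) p * D.α p := fun p =>
    mul_nonneg (indicator_nonneg (fun _ _ => zero_le_one) p) (D.α_pos p).le
  rw [ofReal_integral_eq_lintegral_ofReal _ (Eventually.of_forall h0)]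
  · unfold κ
    rw [withDensity_apply _ hE, ← lintegral_indicator hE]
    refine lintegral_congr fun p => ?_
    by_cases hp : p ∈ E
    · simp [hp]
    · simp [hp]
  · refine Integrable.of_bound (C := 5 / 4) hm.aestronglyMeasurable
      (Eventually.of_forall fun p => ?_)
    rw [Real.norm_eq_abs, abs_of_nonneg (h0 p)]
    have h1 : E.indicator (fun _ => (1 : ℝ)) p ≤ 1 := indicator_le_self' (fun _ _ => zero_le_one) p
    have h2 := D.α_le p
    have h3 := (D.α_pos p).le
    have h4 : 0 ≤ E.indicator (fun _ => (1 : ℝ)) p := indicator_nonneg (fun _ _ => zero_le_one) p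
    nlinarith

theorem map_κ (t : ℝ) : D.κ.map (D.ψ t) = D.κ := by
  ext E hE
  rw [Measure.map_apply (D.measurable_ψ t) hE, D.κ_apply (D.measurable_ψ t hE), D.κ_apply hE]
  congr 1
  have h := D.integral_ψ t (F := E.indicator (fun _ => (1 : ℝ))) (measurable_const.indicator hE)
    (C := 1) (fun p => by
      by_cases hp : p ∈ E
      · simp [hp]
      · simp [hp])
  rw [← h]
  rfl

theorem κ_univ_pos : D.κ univ ≠ 0 := by
  rw [D.κ_apply MeasurableSet.univ]
  simp only [indicator_univ, one_mul]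
  rw [ne_eq, ENNReal.ofReal_eq_zero, not_le]
  have hI : Integrable D.α μ := by
    refine Integrable.of_bound (C := 5 / 4) D.measurable_α.aestronglyMeasurable
      (Eventually.of_forall fun p => ?_)
    rw [Real.norm_eq_abs, abs_of_pos (D.α_pos p)]
    exact D.α_le p
  have h1 : ∫ p, (3 / 4 : ℝ) ∂(μ : Measure Nil) ≤ ∫ p, D.α p ∂μ :=
    integral_mono (integrable_const _) hI fun p => D.α_ge p
  rw [integral_const, probReal_univ, one_smul] at h1
  linarith

theorem κ_univ_top : D.κ univ ≠ ⊤ := by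
  rw [D.κ_apply MeasurableSet.univ]
  exact ENNReal.ofReal_ne_top

/-- the normalised invariant measure -/
noncomputable abbrev ν : Measure Nil := weighted μ D.α

theorem ν_eq : D.ν = (D.κ univ)⁻¹ • D.κ := rfl

instance : IsProbabilityMeasure D.ν := ⟨by
  rw [ν_eq, Measure.smul_apply, smul_eq_mul]
  exact ENNReal.inv_mul_cancel D.κ_univ_pos D.κ_univ_top⟩

theorem map_ν (t : ℝ) : D.ν.map (D.ψ t) = D.ν := by
  rw [ν_eq, Measure.map_smul, D.map_κ]

theorem measurePreserving_ψ (t : ℝ) : MeasurePreserving (D.ψ t) D.ν D.ν :=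
  ⟨D.measurable_ψ t, D.map_ν t⟩

theorem ae_ν {P : Nil → Prop} (h : ∀ᵐ p ∂μ, P p) : ∀ᵐ p ∂D.ν, P p := by
  have h1 : D.ν ≪ μ := by
    rw [ν_eq]
    exact (Measure.AbsolutelyContinuous.rfl.smul_left _).trans
      (withDensity_absolutelyContinuous _ _)
  exact h1.ae_le h

end Dat

end Pool.Agent.Y316.NF
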