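import Pool.Agent.Y316.NF.Times

set_option autoImplicit false

/-!
# The time change is not measurably trivial
-/

open MeasureTheory Filter Topology Set
open scoped ContDiff ComplexConjugate

namespace Pool.Agent.Y316.NF

theorem dense_L2 : (Submodule.span ℂ (range fun n : Fin 3 → ℤ =>
    ContinuousMap.toLp (E := ℂ) 2 (haar (Fin 3)) ℂ
      (UnitAddTorus.mFourier n))).topologicalClosure = ⊤ :=
  UnitAddTorus.span_mFourierLp_closure_eq_top (d := Fin 3) (p := 2) (by simp)

/-- a bounded function with vanishing Fourier coefficients vanishes -/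
theorem ae_zero_of_fourier {g : 𝕋3 → ℂ} (hg : Measurable g) {C : ℝ} (hC : ∀ x, ‖g x‖ ≤ C)
    (h : ∀ n : Fin 3 → ℤ, ∫ x, g x * conj (UnitAddTorus.mFourier n x) ∂(haar (Fin 3)) = 0) :
    ∀ᵐ x ∂(haar (Fin 3)), g x = 0 := by
  have hgm : MemLp g 2 (haar (Fin 3)) :=
    MemLp.of_bound hg.aestronglyMeasurable C (Eventually.of_forall hC)
  have horth : (Submodule.span ℂ (range fun n : Fin 3 → ℤ =>
    ContinuousMap.toLp (E := ℂ) 2 (haar (Fin 3)) ℂ (UnitAddTorus.mFourier n)))ᗮ = ⊥ :=
    (Submodule.topologicalClosure_eq_top_iff).1 dense_L2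
  have hmem : hgm.toLp g ∈ (Submodule.span ℂ (range fun n : Fin 3 → ℤ =>
    ContinuousMap.toLp (E := ℂ) 2 (haar (Fin 3)) ℂ (UnitAddTorus.mFourier n)))ᗮ := by
    rw [Submodule.mem_orthogonal]
    intro u hu
    induction hu using Submodule.span_induction with
    | mem x hx =>
      obtain ⟨n, rfl⟩ := hx
      rw [L2.inner_def]
      rw [← h n]
      refine integral_congr_ae ?_
      filter_upwards [hgm.coeFn_toLp,
        ContinuousMap.coeFn_toLp (p := 2) (𝕜 := ℂ) (haar (Fin 3)) (UnitAddTorus.mFourier n)]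
        with x hx1 hx2
      rw [hx1, hx2]
      rfl
    | zero => simp
    | add x y _ _ hx hy => rw [inner_add_left, hx, hy, add_zero]
    | smul c x _ hx => rw [inner_smul_left, hx, mul_zero]
  rw [horth, Submodule.mem_bot] at hmem
  filter_upwards [hgm.coeFn_toLp, Lp.coeFn_zero ℂ 2 (haar (Fin 3))] with x hx1 hx2
  rw [← hx1, hmem, hx2]
  rfl

theorem norm_ee_sub_le (x y : ℝ) : ‖ee x - ee y‖ ≤ 2 * Real.pi * |x - y| := by
  have h1 : ee x - ee y = (ee (x - y) - 1) * ee y := by
    have : x = (x - y) + y := by ring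
    conv_lhs => rw [this]
    rw [ee_add]
    ring
  rw [h1, norm_mul, norm_ee, mul_one]
  have h2 : ee (x - y) = Complex.exp (Complex.I * ((2 * Real.pi * (x - y) : ℝ) : ℂ)) := by
    unfold ee
    congr 1
    push_cast
    ring
  rw [h2]
  refine (Real.norm_exp_I_mul_ofReal_sub_one_le).trans ?_
  rw [Real.norm_eq_abs, abs_mul, abs_of_pos (by positivity)]

theorem measurable_ee : Measurable ee := by
  unfold ee
  fun_prop

theorem integral_φ (θ t : ℝ) {F : Nil → ℂ} (hF : Measurable F) :
    ∫ p, F (φ θ t p) ∂μ = ∫ p, F p ∂μ := by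
  rw [← integral_map_fun (measurable_φ θ t) hF]
  congr 1
  exact map_rtrans_μ _

theorem φ_neg (θ t : ℝ) (p : Nil) : φ θ (-t) (φ θ t p) = p := by
  rw [← φ_add, neg_add_cancel, φ_zero]

theorem φ_neg' (θ t : ℝ) (p : Nil) : φ θ t (φ θ (-t) p) = p := by
  rw [← φ_add, add_neg_cancel, φ_zero]

namespace Dat

variable {θ : ℝ} (D : Dat θ)

theorem S_le (j : ℕ) (p : Nil) : |D.S (D.N j) p| ≤ 5 := by
  have h1 := abs_le.1 (D.S_near j p)
  have h2 : (3 / 4 : ℝ) ^ j ≤ 1 := pow_le_one₀ (by norm_num) (by norm_num)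
  have h3 : 0 ≤ D.A j p := prof_nonneg _ _
  have h4 : D.A j p ≤ 1 := prof_le_one _ _
  rw [abs_le]
  constructor <;> linarith [h1.1, h1.2]

theorem ae_φ {t : ℝ} {P : Nil → Prop} (h : ∀ᵐ p ∂μ, P p) : ∀ᵐ p ∂μ, P (φ θ t p) := by
  have h1 : ∀ᵐ p ∂(μ.map (φ θ t)), P p := by
    have : μ.map (φ θ t) = μ := map_rtrans_μ _
    rw [this]
    exact h
  exact ae_of_ae_map (measurable_φ θ t).aemeasurable h1

theorem const_eq_one {c : ℝ} {u : Nil → ℝ} (hu : Measurable u)
    (h : ∀ t : ℝ, ∀ᵐ p ∂μ, u (φ θ t p) - u p = (1 - c) * t + D.S t p) : c = 1 := by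
  by_contra hc
  -- a bound for `u` on most of the space
  obtain ⟨K, hK⟩ : ∃ K : ℝ, μ {p | K < |u p|} < 1 / 4 := by
    have hlim := tendsto_measure_iInter_atTop (μ := μ)
      (s := fun n : ℕ => {p | (n : ℝ) < |u p|})
      (fun n => (measurableSet_lt measurable_const hu.norm).nullMeasurableSet)
      (by
        intro m n hmn p hp
        have : (m : ℝ) ≤ n := by exact_mod_cast hmn
        exact lt_of_le_of_lt this hp)
      ⟨0, measure_ne_top _ _⟩
    have he : (⋂ n : ℕ, {p | (n : ℝ) < |u p|}) = ∅ := by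
      ext p
      simp only [mem_iInter, mem_ofPred_eq, mem_empty_iff_false, iff_false, not_forall, not_lt]
      obtain ⟨n, hn⟩ := exists_nat_gt |u p|
      exact ⟨n, hn.le⟩
    rw [he, measure_empty] at hlim
    obtain ⟨n, hn⟩ := (hlim.eventually (gt_mem_nhds (by norm_num : (0 : ENNReal) < 1 / 4))).exists
    exact ⟨n, hn⟩
  have hc1 : 0 < |1 - c| := abs_pos.2 (sub_ne_zero.2 (Ne.symm hc))
  obtain ⟨j, hj⟩ := (D.N_abs_tendsto.eventually_gt_atTop ((2 * K + 5) / |1 - c|)).exists
  rw [div_lt_iff₀ hc1] at hj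
  set t : ℝ := (D.N j : ℝ) with ht
  have hm : MeasurableSet {p | K < |u p|} := measurableSet_lt measurable_const hu.norm
  have h1 : μ (φ θ t ⁻¹' {p | K < |u p|}) = μ {p | K < |u p|} := by
    rw [← Measure.map_apply (measurable_φ θ t) hm]
    congr 1
    exact map_rtrans_μ _
  have h2 := ae_iff.1 (h t)
  have h3 : μ ({p | K < |u p|} ∪ φ θ t ⁻¹' {p | K < |u p|} ∪
      {p | ¬ u (φ θ t p) - u p = (1 - c) * t + D.S t p}) < 1 := by
    refine lt_of_le_of_lt (measure_union_le _ _) ?_
    rw [h2, add_zero]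
    refine lt_of_le_of_lt (measure_union_le _ _) ?_
    rw [h1]
    calc μ {p | K < |u p|} + μ {p | K < |u p|} < 1 / 4 + 1 / 4 := ENNReal.add_lt_add hK hK
      _ ≤ 1 := by
        rw [← two_mul, one_div]
        have : (2 : ENNReal) * 4⁻¹ = 2⁻¹ := by
          rw [show (4 : ENNReal) = 2 * 2 by norm_num, ENNReal.mul_inv (by simp) (by simp),
            ← mul_assoc, ENNReal.mul_inv_cancel (by simp) (by simp), one_mul]
        rw [this]
        simp
  have h4 : ∃ p, p ∉ ({p | K < |u p|} ∪ φ θ t ⁻¹' {p | K < |u p|} ∪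
      {p | ¬ u (φ θ t p) - u p = (1 - c) * t + D.S t p}) := by
    by_contra hall
    push Not at hall
    have : ({p | K < |u p|} ∪ φ θ t ⁻¹' {p | K < |u p|} ∪
      {p | ¬ u (φ θ t p) - u p = (1 - c) * t + D.S t p}) = univ := eq_univ_of_forall hall
    rw [this, measure_univ] at h3
    exact lt_irrefl _ h3
  obtain ⟨p, hp⟩ := h4
  simp only [mem_union, mem_ofPred_eq, mem_preimage, not_or, not_lt, not_not] at hp
  obtain ⟨⟨hp1, hp2⟩, hp3⟩ := hp
  have h5 := D.S_le j p
  rw [← ht] at h5
  have h6 : |(1 - c) * t| ≤ 2 * K + 5 := by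
    have e : (1 - c) * t = u (φ θ t p) - u p - D.S t p := by linarith
    rw [e]
    have := abs_sub (u (φ θ t p) - u p) (D.S t p)
    have h7 := abs_sub (u (φ θ t p)) (u p)
    linarith
  rw [abs_mul] at h6
  linarith

theorem not_trivial : ¬ MeasurablyTrivial μ (nilflow 1 θ 0) D.α := by
  rintro ⟨c, u, hu, h0⟩
  have h : ∀ t : ℝ, ∀ᵐ p ∂μ, u (φ θ t p) - u p = (1 - c) * t + D.S t p := by
    intro t
    filter_upwards [h0 t] with p hp
    rw [← D.integral_α_sub p t c]
    exact hp
  have hc := D.const_eq_one hu h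
  subst hc
  set w : Nil → ℂ := fun p => ee (u p / 2) with hw
  have hwm : Measurable w := measurable_ee.comp (hu.div_const 2)
  have hw1 : ∀ p, ‖w p‖ = 1 := fun p => norm_ee _
  -- `w ∘ φ_{N_j} ≈ - w`
  have hbound : ∀ j, ∀ᵐ p ∂μ, ‖w (φ θ (D.N j) p) + w p‖ ≤
      4 * Real.pi * (3 / 4) ^ j + 2 * (D.Bad j).indicator (fun _ => (1 : ℝ)) p := by
    intro j
    filter_upwards [h (D.N j)] with p hp
    rw [sub_self, zero_mul, zero_add] at hp
    by_cases hb : p ∈ D.Bad j
    · rw [indicator_of_mem hb]
      have h1 := norm_add_le (w (φ θ (D.N j) p)) (w p)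
      rw [hw1, hw1] at h1
      have h2 : 0 ≤ 4 * Real.pi * (3 / 4 : ℝ) ^ j := by positivity
      linarith
    · rw [indicator_of_notMem hb, mul_zero, add_zero]
      have h3 : D.A j p = 0 ∨ D.A j p = 1 := not_not.1 hb
      have h4 : ee ((1 - 2 * D.A j p) / 2) = -1 := by
        rcases h3 with h3 | h3
        · rw [h3]
          norm_num [ee_half]
        · rw [h3]
          have : ((1 : ℝ) - 2 * 1) / 2 = 1 / 2 + ((-1 : ℤ) : ℝ) := by norm_num
          rw [this, ee_add, ee_half, ee_int]
          norm_num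
      have h5 : w (φ θ (D.N j) p) + w p =
          (ee (D.S (D.N j) p / 2) - ee ((1 - 2 * D.A j p) / 2)) * w p := by
        rw [h4]
        have e : u (φ θ (D.N j) p) / 2 = D.S (D.N j) p / 2 + u p / 2 := by linarith
        simp only [hw]
        rw [e, ee_add]
        ring
      rw [h5, norm_mul, hw1, mul_one]
      refine (norm_ee_sub_le _ _).trans ?_
      have h6 := D.S_near j p
      have h7 : |D.S (D.N j) p / 2 - (1 - 2 * D.A j p) / 2| ≤ 2 * (3 / 4) ^ j := by
        rw [← sub_div, abs_div, abs_two]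
        linarith
      calc 2 * Real.pi * |D.S (D.N j) p / 2 - (1 - 2 * D.A j p) / 2|
          ≤ 2 * Real.pi * (2 * (3 / 4) ^ j) :=
            mul_le_mul_of_nonneg_left h7 (by positivity)
        _ = 4 * Real.pi * (3 / 4) ^ j := by ring
  have hlim : Tendsto (fun j => ∫ p, ‖w (φ θ (D.N j) p) + w p‖ ∂μ) atTop (𝓝 0) := by
    have hup : Tendsto (fun j : ℕ => 4 * Real.pi * (3 / 4 : ℝ) ^ j + 2 * (1 / 2) ^ j) atTop
        (𝓝 0) := by
      have h1 := (tendsto_pow_atTop_nhds_zero_of_lt_one (r := (3 / 4 : ℝ)) (by norm_num)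
        (by norm_num)).const_mul (4 * Real.pi)
      have h2 := (tendsto_pow_atTop_nhds_zero_of_lt_one (r := (1 / 2 : ℝ)) (by norm_num)
        (by norm_num)).const_mul 2
      simpa using h1.add h2
    refine squeeze_zero (fun j => integral_nonneg fun p => norm_nonneg _) (fun j => ?_) hup
    have hint : Integrable (fun p => 4 * Real.pi * (3 / 4) ^ j +
        2 * (D.Bad j).indicator (fun _ => (1 : ℝ)) p) μ :=
      (integrable_const _).add
        (((integrable_const (1 : ℝ)).indicator (D.measurableSet_Bad j)).const_mul 2)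
    refine (integral_mono_ae ?_ hint (hbound j)).trans ?_
    · refine (Integrable.of_bound (C := 2) ?_ ?_)
      · exact ((hwm.comp (measurable_φ θ _)).add hwm).norm.aestronglyMeasurable
      · refine Eventually.of_forall fun p => ?_
        rw [norm_norm]
        have h1 := norm_add_le (w (φ θ (D.N j) p)) (w p)
        rw [hw1, hw1] at h1
        linarith
    · rw [integral_add (integrable_const _)
        (((integrable_const (1 : ℝ)).indicator (D.measurableSet_Bad j)).const_mul 2)]
      have e1 : ∫ p, 2 * (D.Bad j).indicator (fun _ => (1 : ℝ)) p ∂μ = 2 * μ.real (D.Bad j) := by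
        rw [integral_const_mul, integral_indicator_const _ (D.measurableSet_Bad j)]
        simp
      rw [e1, integral_const, probReal_univ, one_smul]
      have := D.μ_real_Bad j
      linarith
  -- Fourier coefficients
  have hcoef : ∀ n : Fin 3 → ℤ, ∫ p, w p * conj (UnitAddTorus.mFourier n (Θ p)) ∂μ = 0 := by
    intro n
    set cn : ℂ := ∫ p, w p * conj (UnitAddTorus.mFourier n (Θ p)) ∂μ with hcn
    have hfm : Measurable fun p : Nil => conj (UnitAddTorus.mFourier n (Θ p)) :=
      Complex.continuous_conj.measurable.comp ((measurable_mF n).comp Θ.measurable)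
    have hf1 : ∀ p : Nil, ‖conj (UnitAddTorus.mFourier n (Θ p))‖ = 1 := by
      intro p
      rw [RCLike.norm_conj]
      have := norm_vk (θ := θ) n 0 p
      unfold vk at this
      rw [Int.cast_zero, φ_zero] at this
      exact this
    have hI : ∀ j, ∫ p, w (φ θ (D.N j) p) * conj (UnitAddTorus.mFourier n (Θ p)) ∂μ =
        ∫ p, w p * conj (vk θ n (-D.N j) p) ∂μ := by
      intro j
      have h1 := integral_φ θ (D.N j) (F := fun p => w p * conj (vk θ n (-D.N j) p))
        (hwm.mul (Complex.continuous_conj.measurable.comp (measurable_vk n _)))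
      rw [← h1]
      refine integral_congr_ae (Eventually.of_forall fun p => ?_)
      simp only [vk]
      rw [Int.cast_neg, φ_neg]
    have hto : Tendsto (fun j => ∫ p, w (φ θ (D.N j) p) *
        conj (UnitAddTorus.mFourier n (Θ p)) ∂μ) atTop (𝓝 (-cn)) := by
      rw [tendsto_iff_norm_sub_tendsto_zero]
      refine squeeze_zero (fun j => norm_nonneg _) (fun j => ?_) hlim
      have i1 : Integrable (fun p => w (φ θ (D.N j) p) *
          conj (UnitAddTorus.mFourier n (Θ p))) μ := by
        refine Integrable.of_bound (C := 1)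
          ((hwm.comp (measurable_φ θ _)).mul hfm).aestronglyMeasurable
          (Eventually.of_forall fun p => ?_)
        rw [norm_mul, hw1, hf1, one_mul]
      have i2 : Integrable (fun p => w p * conj (UnitAddTorus.mFourier n (Θ p))) μ := by
        refine Integrable.of_bound (C := 1) (hwm.mul hfm).aestronglyMeasurable
          (Eventually.of_forall fun p => ?_)
        rw [norm_mul, hw1, hf1, one_mul]
      rw [sub_neg_eq_add, hcn, ← integral_add i1 i2]
      refine (norm_integral_le_integral_norm _).trans (le_of_eq ?_)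
      refine integral_congr_ae (Eventually.of_forall fun p => ?_)
      simp only
      rw [← add_mul, norm_mul, hf1, mul_one]
    by_cases h2 : n 2 = 0
    · have e1 : ∀ (j : ℕ) (p : Nil), vk θ n (-D.N j) p =
          ee (-(n 1 * (D.M j * D.δ j))) * UnitAddTorus.mFourier n (Θ p) := by
        intro j p
        obtain ⟨v, rfl⟩ := pr_surj p
        rw [vk_pr, Θ_pr, mFourier_cfun, ← ee_add, h2]
        have hN : (D.N j : ℝ) * θ = D.M j * D.δ j + ((D.M j * D.p j : ℤ) : ℝ) := by
          rw [N_cast]
          unfold δ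
          push_cast
          ring
        have e2 : ((n 0 : ℝ) * (v.1 + ((-D.N j : ℤ) : ℝ)) +
            n 1 * (v.2.1 + ((-D.N j : ℤ) : ℝ) * θ) +
            ((0 : ℤ) : ℝ) * ((v.2.2 + (((-D.N j : ℤ) : ℝ)) ^ 2 * θ / 2 +
              v.1 * (((-D.N j : ℤ) : ℝ) * θ)) -
              (⌊v.1⌋ + ((-D.N j : ℤ) : ℝ)) * (v.2.1 + ((-D.N j : ℤ) : ℝ) * θ))) =
            (-(n 1 * (D.M j * D.δ j)) + (n 0 * v.1 + n 1 * v.2.1 +
              ((0 : ℤ) : ℝ) * (v.2.2 - ⌊v.1⌋ * v.2.1))) +
              ((-(n 0 * D.N j) - n 1 * (D.M j * D.p j) : ℤ) : ℝ) := by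
          push_cast at hN ⊢
          linear_combination (-(n 1 : ℝ)) * hN
        rw [e2, ee_add, ee_int, mul_one]
      have e3 : ∀ j, ∫ p, w (φ θ (D.N j) p) * conj (UnitAddTorus.mFourier n (Θ p)) ∂μ =
          ee (n 1 * (D.M j * D.δ j)) * cn := by
        intro j
        rw [hI j, hcn, ← integral_const_mul]
        refine integral_congr_ae (Eventually.of_forall fun p => ?_)
        simp only
        rw [e1 j p, map_mul, conj_ee, neg_neg]
        ring
      have e4 : Tendsto (fun j => ee (n 1 * (D.M j * D.δ j)) * cn) atTop (𝓝 (1 * cn)) := by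
        refine Tendsto.mul_const cn ?_
        have e5 : Tendsto (fun j => (n 1 : ℝ) * ((D.M j : ℝ) * D.δ j)) atTop (𝓝 0) := by
          have := ((tendsto_zero_iff_abs_tendsto_zero _).2 D.q_tendsto).const_mul (n 1 : ℝ)
          simpa using this
        have e6 : Continuous ee := by unfold ee; fun_prop
        have e7 := (e6.tendsto 0).comp e5
        rw [ee_zero] at e7
        exact e7
      simp_rw [e3] at hto
      have e8 := tendsto_nhds_unique hto e4
      have e9 : (2 : ℂ) * cn = 0 := by linear_combination (-1 : ℂ) * e8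
      rcases mul_eq_zero.1 e9 with h | h
      · norm_num at h
      · exact h
    · have hb : μ.map base = haar (Fin 2) := by
        have : IsProbabilityMeasure (μ.map base) :=
          Measure.isProbabilityMeasure_map measurable_base.aemeasurable
        refine eq_haar fun m hm => ?_
        rw [integral_map_fun measurable_base (measurable_mF m)]
        have h3 : ∀ p, UnitAddTorus.mFourier m (base p) =
            UnitAddTorus.mFourier ![m 0, m 1, 0] (Θ p) := by
          intro p
          rw [mFourier_apply, mFourier_apply, Fin.prod_univ_three, Fin.prod_univ_two]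
          simp [base]
        simp_rw [h3]
        rw [integral_μ]
        simp only [MeasurableEquiv.apply_symm_apply]
        refine integral_mFourier_haar fun h => hm ?_
        have h4 := congrFun h 0
        have h5 := congrFun h 1
        ext i
        fin_cases i
        · exact h4
        · exact h5
      have h3 := bessel μ (vk θ n) (fun k => measurable_vk n k) (fun k p => norm_vk n k p)
        (fun k l hkl => vk_orth hb h2 k l hkl) w hwm (C := 1) (fun p => (hw1 p).le)
      have h4 : Tendsto (fun j => -D.N j) atTop cofinite :=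
        (Function.Injective.tendsto_cofinite neg_injective).comp D.N_cofinite
      have h5 := h3.comp h4
      simp_rw [hI] at hto
      have h6 := tendsto_nhds_unique hto h5
      exact neg_eq_zero.1 h6
  -- conclusion
  have hz := ae_zero_of_fourier (g := fun x => w (Θ.symm x)) (hwm.comp Θ.symm.measurable)
    (C := 1) (fun x => (hw1 _).le) (fun n => by
      have := hcoef n
      rw [integral_μ] at this
      simpa only [MeasurableEquiv.apply_symm_apply] using this)
  obtain ⟨x, hx⟩ := hz.exists
  have := hw1 (Θ.symm x)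
  rw [hx] at this
  simp at this

end Dat

end Pool.Agent.Y316.NF
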