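import Pool.Agent.Y316.NF.Erg

set_option autoImplicit false

/-!
# Smooth periodic functions which are `0` or `1` outside a small set
-/

open MeasureTheory Filter Topology Set
open scoped ContDiff

namespace Pool.Agent.Y316.NF

/-- the profile -/
noncomputable def prof (K s : ℝ) : ℝ :=
  Real.smoothTransition (K * Real.sin (2 * Real.pi * s) + 1 / 2)

theorem contDiff_prof (K : ℝ) : ContDiff ℝ ∞ (prof K) := by
  unfold prof
  refine Real.smoothTransition.contDiff.comp ?_
  refine ContDiff.add (contDiff_const.mul ?_) contDiff_const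
  exact Real.contDiff_sin.comp (contDiff_const.mul contDiff_id)

theorem prof_add_one (K s : ℝ) : prof K (s + 1) = prof K s := by
  unfold prof
  congr 3
  rw [mul_add, mul_one, Real.sin_add_two_pi]

theorem prof_periodic (K : ℝ) : Function.Periodic (prof K) 1 := prof_add_one K

theorem prof_add_int (K s : ℝ) (n : ℤ) : prof K (s + n) = prof K s := by
  have := (prof_periodic K).int_mul n s
  simpa using this

theorem trans_symm (x : ℝ) : Real.smoothTransition (1 - x) = 1 - Real.smoothTransition x := by
  unfold Real.smoothTransition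
  rw [sub_sub_cancel]
  have h := Real.smoothTransition.pos_denom x
  rw [add_comm (expNegInvGlue (1 - x))]
  field_simp
  ring

theorem prof_add_half (K s : ℝ) : prof K (s + 1 / 2) = 1 - prof K s := by
  unfold prof
  rw [← trans_symm]
  congr 1
  have : 2 * Real.pi * (s + 1 / 2) = 2 * Real.pi * s + Real.pi := by ring
  rw [this, Real.sin_add_pi]
  ring

theorem prof_nonneg (K s : ℝ) : 0 ≤ prof K s := Real.smoothTransition.nonneg _
theorem prof_le_one (K s : ℝ) : prof K s ≤ 1 := Real.smoothTransition.le_one _

theorem prof_zero_or_one {K s : ℝ} (h : 1 / 2 ≤ |K * Real.sin (2 * Real.pi * s)|) :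
    prof K s = 0 ∨ prof K s = 1 := by
  unfold prof
  rcases le_abs.1 h with h1 | h1
  · right
    exact Real.smoothTransition.one_of_one_le (by linarith)
  · left
    exact Real.smoothTransition.zero_of_nonpos (by linarith)

theorem prof_bound (K : ℝ) (n : ℕ) : ∃ B : ℝ, ∀ s, |iteratedDeriv n (prof K) s| ≤ B := by
  have hc : Continuous (iteratedDeriv n (prof K)) :=
    (contDiff_prof K).continuous_iteratedDeriv n (by exact_mod_cast le_top)
  obtain ⟨B, hB⟩ := (isCompact_Icc (a := (0 : ℝ)) (b := 1)).exists_bound_of_continuousOn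
    hc.continuousOn
  have hp : Function.Periodic (iteratedDeriv n (prof K)) 1 := by
    intro s
    have h1 := congrFun (iteratedDeriv_comp_add_const n (prof K) 1) s
    rw [← h1]
    congr 1
    funext z
    exact prof_add_one K z
  refine ⟨B, fun s => ?_⟩
  have h1 : iteratedDeriv n (prof K) (Int.fract s) = iteratedDeriv n (prof K) s := by
    have h2 := hp.sub_int_mul_eq ⌊s⌋ (x := s)
    rw [mul_one] at h2
    exact h2
  rw [← h1]
  exact hB _ ⟨Int.fract_nonneg s, (Int.fract_lt_one s).le⟩

/-- the set where the profile may be neither `0` nor `1` -/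
def bad (K : ℝ) : Set 𝕋 := {u | |K * Real.sin (2 * Real.pi * rep u)| < 1 / 2}

theorem measurableSet_bad (K : ℝ) : MeasurableSet (bad K) := by
  unfold bad
  have h := measurable_rep
  refine measurableSet_lt ?_ measurable_const
  have h2 : Measurable fun u => K * Real.sin (2 * Real.pi * rep u) :=
    measurable_const.mul (Real.measurable_sin.comp (measurable_const.mul h))
  exact h2.norm

theorem not_bad {K s : ℝ} (h : (s : 𝕋) ∉ bad K) : prof K s = 0 ∨ prof K s = 1 := by
  unfold bad at h
  rw [mem_ofPred_eq, not_lt, rep_coe] at h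
  have h1 := prof_zero_or_one h
  have h2 : prof K (Int.fract s) = prof K s := by
    have := prof_add_int K (Int.fract s) ⌊s⌋
    rw [Int.fract_add_floor] at this
    exact this.symm
  rwa [h2] at h1

theorem haar_singleton (u : 𝕋) : AddCircle.haarAddCircle (T := (1 : ℝ)) {u} = 0 := by
  have h1 := AddCircle.volume_eq_smul_haarAddCircle (T := (1 : ℝ))
  rw [ENNReal.ofReal_one, one_smul] at h1
  rw [← h1]
  have h2 := AddCircle.measurePreserving_mk (1 : ℝ) 0
  rw [← h2.measure_preimage (measurableSet_singleton u).nullMeasurableSet]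
  refine measure_mono_null (t := range fun n : ℤ => rep u + n) ?_ ?_
  · intro x hx
    have hx' : (x : 𝕋) = u := hx
    refine ⟨⌊x⌋, ?_⟩
    rw [← hx', rep_coe]
    exact Int.fract_add_floor x
  · exact (countable_range _).measure_zero _

instance : NullSingletonClass (AddCircle.haarAddCircle (T := (1 : ℝ))) := ⟨haar_singleton⟩

theorem exists_K {ε : ENNReal} (hε : 0 < ε) :
    ∃ K : ℝ, 1 ≤ K ∧ AddCircle.haarAddCircle (T := (1 : ℝ)) (bad K) ≤ ε := by
  have hmono : Antitone fun n : ℕ => bad (n + 1 : ℝ) := by
    intro m n hmn u hu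
    unfold bad at hu ⊢
    rw [mem_ofPred_eq, abs_mul] at hu ⊢
    refine lt_of_le_of_lt ?_ hu
    refine mul_le_mul_of_nonneg_right ?_ (abs_nonneg _)
    rw [abs_of_nonneg (by positivity), abs_of_nonneg (by positivity)]
    have : (m : ℝ) ≤ n := by exact_mod_cast hmn
    linarith
  have hlim := tendsto_measure_iInter_atTop (μ := AddCircle.haarAddCircle (T := (1 : ℝ)))
    (s := fun n : ℕ => bad (n + 1 : ℝ)) (fun n => (measurableSet_bad _).nullMeasurableSet)
    hmono ⟨0, measure_ne_top _ _⟩
  have hzero : AddCircle.haarAddCircle (T := (1 : ℝ)) (⋂ n : ℕ, bad (n + 1 : ℝ)) = 0 := by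
    have hsub : (⋂ n : ℕ, bad (n + 1 : ℝ)) ⊆
        {((0 : ℝ) : 𝕋), ((1 / 2 : ℝ) : 𝕋)} := by
      intro u hu
      rw [mem_iInter] at hu
      have hs : Real.sin (2 * Real.pi * rep u) = 0 := by
        by_contra hne
        obtain ⟨n, hn⟩ := exists_nat_gt (1 / |Real.sin (2 * Real.pi * rep u)|)
        have h1 := hu n
        unfold bad at h1
        rw [mem_ofPred_eq, abs_mul, abs_of_nonneg (by positivity : (0 : ℝ) ≤ n + 1)] at h1
        have hpos : 0 < |Real.sin (2 * Real.pi * rep u)| := abs_pos.2 hne
        rw [div_lt_iff₀ hpos] at hn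
        nlinarith
      obtain ⟨k, hk⟩ := Real.sin_eq_zero_iff.1 hs
      have hk2 : rep u = k / 2 := by
        have hpi := Real.pi_ne_zero
        field_simp at hk
        linarith
      have h3 := rep_mem u
      rw [hk2] at h3
      have h4 : (0 : ℝ) ≤ k := by linarith [h3.1]
      have h5 : (k : ℝ) < 2 := by linarith [h3.2]
      have h6 : 0 ≤ k := by exact_mod_cast h4
      have h7 : k < 2 := by exact_mod_cast h5
      rw [← coe_rep u, hk2]
      interval_cases k
      · left; simp
      · right
        simp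
    exact ((Set.toFinite _).subset hsub).measure_zero _
  rw [hzero] at hlim
  have h1 := (hlim.eventually (gt_mem_nhds hε)).exists
  obtain ⟨n, hn⟩ := h1
  exact ⟨n + 1, by linarith [Nat.cast_nonneg (α := ℝ) n], le_of_lt hn⟩

end Pool.Agent.Y316.NF
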