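import Pool.Agent.Y316.NF.Prof

set_option autoImplicit false

/-!
# The choice of the parameters
-/

open MeasureTheory Filter Topology Set
open scoped ContDiff

namespace Pool.Agent.Y316.NF

/-- the parameters of the construction -/
structure Dat (θ : ℝ) where
  K : ℕ → ℝ
  B : ℕ → ℝ
  q : ℕ → ℕ
  p : ℕ → ℤ
  hK : ∀ j, AddCircle.haarAddCircle (T := (1 : ℝ)) (bad (K j)) ≤ (1 / 2) ^ j
  hB1 : ∀ j, 1 ≤ B j
  hB : ∀ j, ∀ k ≤ j + 2, ∀ s, |iteratedDeriv k (prof (K j)) s| ≤ B j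
  q1 : ∀ j, 1 ≤ q j
  δ0 : ∀ j, (q j : ℝ) * θ - p j ≠ 0
  small : ∀ j, |(q j : ℝ) * θ - p j| * B j * ((2 + |θ|) * q j) ^ (j + 1) ≤ (1 / 2) ^ (j + 3)
  grow : ∀ i j, i < j → B i * q i * 2 ^ j ≤ q j
  dec : ∀ i j, i < j → |(q j : ℝ) * θ - p j| * B j * 2 ^ j ≤ |(q i : ℝ) * θ - p i|

theorem exists_dat {θ : ℝ} (hθ : Liouville θ) : Nonempty (Dat θ) := by
  have hK0 : ∀ l : ℕ, ∃ K : ℝ, 1 ≤ K ∧
      AddCircle.haarAddCircle (T := (1 : ℝ)) (bad K) ≤ (1 / 2) ^ l := fun l =>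
    exists_K (by
      refine pos_iff_ne_zero.2 (pow_ne_zero _ ?_)
      simp)
  choose Kf _ hKf using hK0
  have hB0 : ∀ l : ℕ, ∃ B : ℝ, 1 ≤ B ∧ ∀ k ≤ l + 2, ∀ s,
      |iteratedDeriv k (prof (Kf l)) s| ≤ B := by
    intro l
    choose b hb using fun k => prof_bound (Kf l) k
    refine ⟨1 + ∑ k ∈ Finset.range (l + 3), |b k|, ?_, fun k hk s => ?_⟩
    · have : 0 ≤ ∑ k ∈ Finset.range (l + 3), |b k| := Finset.sum_nonneg fun _ _ => abs_nonneg _
      linarith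
    · have h1 : |b k| ≤ ∑ k ∈ Finset.range (l + 3), |b k| :=
        Finset.single_le_sum (f := fun k => |b k|) (fun _ _ => abs_nonneg _)
          (Finset.mem_range.2 (by omega))
      have h2 := hb k s
      have h3 := le_abs_self (b k)
      linarith
  choose Bf hBf1 hBf using hB0
  set C : ℝ := 2 + |θ| with hC
  have hC2 : 2 ≤ C := by rw [hC]; linarith [abs_nonneg θ]
  let α := ℕ × ℕ × ℤ
  let D : α → ℝ := fun x => |(x.2.1 : ℝ) * θ - x.2.2|
  let P : α → Prop := fun x => 1 ≤ x.2.1 ∧ 0 < D x ∧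
    D x * Bf x.1 * (C * x.2.1) ^ (x.1 + 1) ≤ (1 / 2) ^ (x.1 + 3)
  let r : α → α → Prop := fun x y => x.1 < y.1 ∧ Bf x.1 * x.2.1 * 2 ^ y.1 ≤ y.2.1 ∧
    D y * Bf y.1 * 2 ^ y.1 ≤ D x
  have hex : ∀ s : Finset α, (∀ x ∈ s, P x) → ∃ y, P y ∧ ∀ x ∈ s, r x y := by
    intro s hs
    -- the level
    obtain ⟨l, hl⟩ : ∃ l : ℕ, ∀ x ∈ s, x.1 < l := by
      refine ⟨s.sup (fun x => x.1) + 1, fun x hx => ?_⟩
      have := Finset.le_sup (f := fun x : α => x.1) hx
      omega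
    -- the lower bound for the distances
    obtain ⟨η, hη, hηs⟩ : ∃ η : ℝ, 0 < η ∧ ∀ x ∈ s, η ≤ D x := by
      rcases s.eq_empty_or_nonempty with h | h
      · exact ⟨1, one_pos, by simp [h]⟩
      · refine ⟨s.inf' h D, ?_, fun x hx => Finset.inf'_le _ hx⟩
        rw [Finset.lt_inf'_iff]
        exact fun x hx => (hs x hx).2.1
    -- the lower bound for `q`
    obtain ⟨Q, hQ⟩ : ∃ Q : ℝ, ∀ x ∈ s, Bf x.1 * x.2.1 * 2 ^ l ≤ Q := by
      rcases s.eq_empty_or_nonempty with h | h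
      · exact ⟨1, by simp [h]⟩
      · exact ⟨s.sup' h (fun x => Bf x.1 * x.2.1 * 2 ^ l), fun x hx =>
          Finset.le_sup' (fun x : α => Bf x.1 * x.2.1 * 2 ^ l) hx⟩
    obtain ⟨N, hN⟩ := exists_nat_gt (max Q (max (Bf l * C ^ (l + 1) * 2 ^ (l + 3))
      (Bf l * 2 ^ l / η)))
    obtain ⟨b, ⟨a, hne, hlt⟩, hbN⟩ := ((hθ.frequently_exists_num (l + 3)).and_eventually
      (eventually_ge_atTop (max N 2))).exists
    have hb2 : 2 ≤ b := (le_max_right _ _).trans hbN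
    have hbN' : (N : ℝ) ≤ b := by exact_mod_cast (le_max_left _ _).trans hbN
    have hb0 : (0 : ℝ) < b := by exact_mod_cast (by omega : 0 < b)
    have hb1 : (1 : ℝ) ≤ b := by exact_mod_cast (by omega : 1 ≤ b)
    have hDb : |(b : ℝ) * θ - a| = b * |θ - a / b| := by
      rw [← abs_of_pos hb0, ← abs_mul, abs_of_pos hb0]
      congr 1
      field_simp
    have hD1 : |(b : ℝ) * θ - a| ≤ 1 / (b : ℝ) ^ (l + 2) := by
      rw [hDb]
      have : (b : ℝ) * (1 / (b : ℝ) ^ (l + 3)) = 1 / (b : ℝ) ^ (l + 2) := by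
        field_simp
        ring
      rw [← this]
      exact mul_le_mul_of_nonneg_left hlt.le hb0.le
    have hD0 : 0 < |(b : ℝ) * θ - a| := by
      rw [hDb]
      exact mul_pos hb0 (abs_pos.2 (sub_ne_zero.2 hne))
    have hBl : 0 < Bf l := lt_of_lt_of_le one_pos (hBf1 l)
    have hN1 : Q < b := lt_of_lt_of_le ((le_max_left _ _).trans_lt hN) hbN'
    have hN2 : Bf l * C ^ (l + 1) * 2 ^ (l + 3) < b :=
      lt_of_lt_of_le (((le_max_left _ _).trans (le_max_right _ _)).trans_lt hN) hbN'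
    have hN3 : Bf l * 2 ^ l / η < b :=
      lt_of_lt_of_le (((le_max_right _ _).trans (le_max_right _ _)).trans_lt hN) hbN'
    refine ⟨(l, b, a), ⟨by show 1 ≤ b; omega, hD0, ?_⟩, fun x hx => ⟨hl x hx,
      (hQ x hx).trans hN1.le, ?_⟩⟩
    · show |(b : ℝ) * θ - a| * Bf l * (C * b) ^ (l + 1) ≤ (1 / 2) ^ (l + 3)
      calc |(b : ℝ) * θ - a| * Bf l * (C * b) ^ (l + 1)
          ≤ 1 / (b : ℝ) ^ (l + 2) * Bf l * (C * b) ^ (l + 1) := by gcongr
        _ = Bf l * C ^ (l + 1) / b := by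
            rw [mul_pow]
            field_simp
            ring
        _ ≤ (1 / 2) ^ (l + 3) := by
            rw [div_le_iff₀ hb0, one_div, inv_pow, ← div_eq_inv_mul, le_div_iff₀ (by positivity)]
            exact hN2.le
    · show |(b : ℝ) * θ - a| * Bf l * 2 ^ l ≤ D x
      refine le_trans ?_ (hηs x hx)
      rw [div_lt_iff₀ hη] at hN3
      have h1 : |(b : ℝ) * θ - a| ≤ 1 / b := by
        refine hD1.trans ?_
        refine one_div_le_one_div_of_le hb0 ?_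
        exact le_self_pow₀ hb1 (by omega)
      calc |(b : ℝ) * θ - a| * Bf l * 2 ^ l ≤ 1 / b * Bf l * 2 ^ l := by gcongr
        _ = (Bf l * 2 ^ l) / b := by ring
        _ ≤ η := by
          rw [div_le_iff₀ hb0]
          linarith
  obtain ⟨f, hfP, hfr⟩ := exists_seq_of_forall_finset_exists P r hex
  have hlev : ∀ j, j ≤ (f j).1 := by
    intro j
    induction j with
    | zero => exact Nat.zero_le _
    | succ j ih =>
      have := (hfr j (j + 1) (Nat.lt_succ_self j)).1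
      omega
  have hpow : ∀ j : ℕ, (1 / 2 : ℝ) ^ ((f j).1 + 3) ≤ (1 / 2) ^ (j + 3) := fun j =>
    pow_le_pow_of_le_one (by norm_num) (by norm_num) (by have := hlev j; omega)
  refine ⟨⟨fun j => Kf (f j).1, fun j => Bf (f j).1, fun j => (f j).2.1, fun j => (f j).2.2,
    fun j => (hKf _).trans ?_, fun j => hBf1 _, fun j k hk s => hBf _ k ?_ s,
    fun j => (hfP j).1, fun j => abs_pos.1 (hfP j).2.1, fun j => ?_, fun i j hij => ?_,
    fun i j hij => ?_⟩⟩
  · exact pow_le_pow_of_le_one (by simp) (by simp) (hlev j)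
  · have := hlev j
    omega
  · refine le_trans ?_ (((hfP j).2.2).trans (hpow j))
    have h1 : (1 : ℝ) ≤ (f j).2.1 := by exact_mod_cast (hfP j).1
    have h2 : 1 ≤ C * ((f j).2.1 : ℝ) := by nlinarith
    have h3 : 0 ≤ Bf (f j).1 := le_trans zero_le_one (hBf1 _)
    have h4 := hlev j
    refine mul_le_mul_of_nonneg_left ?_ (mul_nonneg (abs_nonneg _) h3)
    exact pow_le_pow_right₀ h2 (by omega)
  · refine le_trans ?_ (hfr i j hij).2.1
    have h3 : 0 ≤ Bf (f i).1 := le_trans zero_le_one (hBf1 _)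
    refine mul_le_mul_of_nonneg_left ?_ (mul_nonneg h3 (Nat.cast_nonneg _))
    exact pow_le_pow_right₀ (by norm_num) (hlev j)
  · refine le_trans ?_ (hfr i j hij).2.2
    have h3 : 0 ≤ Bf (f j).1 := le_trans zero_le_one (hBf1 _)
    refine mul_le_mul_of_nonneg_left ?_ (mul_nonneg (abs_nonneg _) h3)
    exact pow_le_pow_right₀ (by norm_num) (hlev j)

end Pool.Agent.Y316.NF
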