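import Pool.Agent.Y316.NF.Defs

set_option autoImplicit false

/-!
# The Heisenberg nilmanifold as a measurable space: coordinates on the torus
-/

open MeasureTheory Filter Topology Set

namespace Pool.Agent.Y316.NF

open Heis

/-- the circle -/
abbrev 𝕋 : Type := UnitAddCircle

/-- the three dimensional torus -/
abbrev 𝕋3 : Type := Fin 3 → 𝕋

/-- coordinates -/
def toH (v : ℝ × ℝ × ℝ) : Heis := ⟨v.1, v.2.1, v.2.2⟩

theorem continuous_toH : Continuous toH :=
  continuous_induced_rng.2 continuous_id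

theorem toH_surj : Function.Surjective toH := fun g => ⟨(g.x, g.y, g.z), rfl⟩

/-- projection from `ℝ³` -/
def pr (v : ℝ × ℝ × ℝ) : Nil := coset (toH v)

theorem coset_eq {g h : Heis} : coset g = coset h ↔ ∃ a b c : ℤ, h = ⟨a, b, c⟩ * g := by
  have e : coset g = coset h ↔ h * g⁻¹ ∈ lattice :=
    (Quotient.eq (r := QuotientGroup.rightRel lattice)).trans QuotientGroup.rightRel_apply
  rw [e]
  constructor
  · rintro ⟨a, b, c, h1⟩
    exact ⟨a, b, c, by rw [← h1]; group⟩
  · rintro ⟨a, b, c, rfl⟩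
    exact ⟨a, b, c, by group⟩

theorem coset_surj : Function.Surjective coset := Quotient.exists_rep

theorem pr_surj : Function.Surjective pr := coset_surj.comp toH_surj

theorem continuous_coset : Continuous coset := continuous_quotient_mk'

theorem continuous_pr : Continuous pr := continuous_coset.comp continuous_toH

theorem pr_eq {v w : ℝ × ℝ × ℝ} : pr v = pr w ↔ ∃ a b c : ℤ,
    w = (a + v.1, b + v.2.1, c + v.2.2 + a * v.2.1) := by
  unfold pr
  rw [coset_eq]
  constructor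
  · rintro ⟨a, b, c, h⟩
    refine ⟨a, b, c, ?_⟩
    have h1 := congrArg Heis.x h
    have h2 := congrArg Heis.y h
    have h3 := congrArg Heis.z h
    simp only [toH, mul_x, mul_y, mul_z] at h1 h2 h3
    exact Prod.ext h1 (Prod.ext h2 h3)
  · rintro ⟨a, b, c, h⟩
    refine ⟨a, b, c, ?_⟩
    rw [h]
    rfl

theorem isOpen_pr_image {U : Set (ℝ × ℝ × ℝ)} (hU : IsOpen U) : IsOpen (pr '' U) := by
  have hq : IsOpen (coset ⁻¹' (pr '' U)) := by
    have e : toH ⁻¹' (coset ⁻¹' (pr '' U)) = ⋃ (a : ℤ) (b : ℤ) (c : ℤ),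
        (fun w : ℝ × ℝ × ℝ => ((a + w.1, b + w.2.1, c + w.2.2 + a * w.2.1) : ℝ × ℝ × ℝ)) ⁻¹' U := by
      ext w
      simp only [mem_preimage, mem_image, mem_iUnion]
      constructor
      · rintro ⟨v, hv, h⟩
        have h' : pr w = pr v := h.symm
        obtain ⟨a, b, c, rfl⟩ := pr_eq.1 h'
        exact ⟨a, b, c, hv⟩
      · rintro ⟨a, b, c, h⟩
        exact ⟨_, h, (pr_eq.2 ⟨a, b, c, rfl⟩).symm⟩
    have h1 : IsOpen (toH ⁻¹' (coset ⁻¹' (pr '' U))) := by
      rw [e]
      refine isOpen_iUnion fun a => isOpen_iUnion fun b => isOpen_iUnion fun c => ?_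
      exact hU.preimage (by fun_prop)
    rw [isOpen_induced_iff]
    refine ⟨toH ⁻¹' (coset ⁻¹' (pr '' U)), h1, ?_⟩
    ext g
    rfl
  exact hq

instance : SecondCountableTopology Nil :=
  (IsOpenQuotientMap.mk pr_surj continuous_pr fun _ hU =>
    isOpen_pr_image hU).isQuotientMap.secondCountableTopology (fun _ hU => isOpen_pr_image hU)

instance : T1Space Nil := by
  refine ⟨fun p => ?_⟩
  obtain ⟨v, rfl⟩ := pr_surj p
  rw [← (IsOpenQuotientMap.mk pr_surj continuous_pr fun _ hU =>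
    isOpen_pr_image hU).isQuotientMap.isClosed_preimage]
  have hZ : IsClosed (range ((↑) : ℤ → ℝ)) := Int.isClosedEmbedding_coe_real.isClosed_range
  have e : pr ⁻¹' {pr v} = (fun w : ℝ × ℝ × ℝ => w.1 - v.1) ⁻¹' (range ((↑) : ℤ → ℝ)) ∩
      ((fun w : ℝ × ℝ × ℝ => w.2.1 - v.2.1) ⁻¹' (range ((↑) : ℤ → ℝ)) ∩
      (fun w : ℝ × ℝ × ℝ => w.2.2 - v.2.2 - (w.1 - v.1) * v.2.1) ⁻¹' (range ((↑) : ℤ → ℝ))) := by
    ext w
    simp only [mem_preimage, mem_singleton_iff, mem_inter_iff, mem_range]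
    rw [eq_comm, pr_eq]
    constructor
    · rintro ⟨a, b, c, rfl⟩
      exact ⟨⟨a, by ring⟩, ⟨b, by ring⟩, ⟨c, by ring⟩⟩
    · rintro ⟨⟨a, ha⟩, ⟨b, hb⟩, ⟨c, hc⟩⟩
      refine ⟨a, b, c, ?_⟩
      rw [ha, hb, hc]
      refine Prod.ext ?_ (Prod.ext ?_ ?_)
      · simp
      · simp
      · simp only []
        ring
  rw [e]
  exact (hZ.preimage (by fun_prop)).inter
    ((hZ.preimage (by fun_prop)).inter (hZ.preimage (by fun_prop)))

theorem measurable_coset_toH : Measurable pr := continuous_pr.measurable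

/-- a function on the nilmanifold is Borel if its lift to `ℝ³` is -/
theorem measurable_of_lift {Y : Type*} [MeasurableSpace Y] {f : Nil → Y}
    (h : Measurable (f ∘ pr)) : Measurable f := by
  intro s hs
  have h1 : MeasurableSet (pr ⁻¹' (f ⁻¹' s)) := h hs
  have h2 := Continuous.map_borel_eq continuous_pr pr_surj
  have h3 : MeasurableSet[MeasurableSpace.map pr (borel (ℝ × ℝ × ℝ))] (f ⁻¹' s) := by
    rw [MeasurableSpace.map_def]
    rw [← BorelSpace.measurable_eq (α := ℝ × ℝ × ℝ)]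
    exact h1
  rw [h2] at h3
  exact h3

/-- the coordinates `(x, y, z - ⌊x⌋ y)` modulo one, on `ℝ³` -/
noncomputable def cfun (v : ℝ × ℝ × ℝ) : 𝕋3 :=
  ![(v.1 : 𝕋), (v.2.1 : 𝕋), ((v.2.2 - ⌊v.1⌋ * v.2.1 : ℝ) : 𝕋)]

theorem cfun_inv {v w : ℝ × ℝ × ℝ} (h : pr v = pr w) : cfun v = cfun w := by
  obtain ⟨a, b, c, rfl⟩ := pr_eq.1 h
  unfold cfun
  have hper : ∀ (n : ℤ) (r s : ℝ), s = r + n → (r : 𝕋) = (s : 𝕋) := by
    intro n r s hs
    rw [hs, AddCircle.coe_add]
    have : ((n : ℝ) : 𝕋) = 0 := by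
      rw [AddCircle.coe_eq_zero_iff]
      exact ⟨n, by simp⟩
    rw [this, add_zero]
  congr 1
  · exact hper a _ _ (by ring)
  · congr 1
    · exact hper b _ _ (by ring)
    · congr 1
      refine hper (c - (⌊v.1⌋ + a) * b) _ _ ?_
      rw [Int.floor_intCast_add]
      push_cast
      ring

/-- the coordinate map of the nilmanifold -/
noncomputable def Ψ : Nil → 𝕋3 :=
  Quotient.lift (fun g : Heis => cfun (g.x, g.y, g.z)) (by
    intro g h hgh
    apply cfun_inv
    unfold pr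
    exact Quotient.sound hgh)

theorem Ψ_pr (v : ℝ × ℝ × ℝ) : Ψ (pr v) = cfun v := rfl

theorem measurable_cfun : Measurable cfun := by
  unfold cfun
  refine measurable_pi_iff.2 fun i => ?_
  fin_cases i
  · exact AddCircle.measurable_mk'.comp measurable_fst
  · exact AddCircle.measurable_mk'.comp (measurable_fst.comp measurable_snd)
  · refine AddCircle.measurable_mk'.comp ?_
    have h1 : Measurable fun v : ℝ × ℝ × ℝ => ((⌊v.1⌋ : ℤ) : ℝ) := by
      fun_prop
    exact (measurable_snd.comp measurable_snd).sub (h1.mul (measurable_fst.comp measurable_snd))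

theorem measurable_Ψ : Measurable Ψ := measurable_of_lift measurable_cfun

/-- the representative in `[0, 1)` -/
noncomputable def rep (u : 𝕋) : ℝ := (AddCircle.equivIco (1 : ℝ) 0 u : ℝ)

theorem rep_mem (u : 𝕋) : rep u ∈ Ico (0 : ℝ) 1 := by
  have h := (AddCircle.equivIco (1 : ℝ) 0 u).2
  exact ⟨h.1, h.2.trans_eq (zero_add 1)⟩

theorem coe_rep (u : 𝕋) : ((rep u : ℝ) : 𝕋) = u := AddCircle.coe_equivIco

theorem rep_coe (x : ℝ) : rep (x : 𝕋) = Int.fract x := by
  have h := AddCircle.coe_equivIco_mk_apply (p := (1 : ℝ)) x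
  unfold rep
  rw [div_one, mul_one] at h
  exact h

theorem measurable_rep : Measurable rep :=
  measurable_subtype_coe.comp (AddCircle.measurableEquivIco (1 : ℝ) 0).measurable

/-- the section on `ℝ³` -/
noncomputable def sv (u : 𝕋3) : ℝ × ℝ × ℝ := (rep (u 0), rep (u 1), rep (u 2))

theorem measurable_rep_apply (i : Fin 3) : Measurable fun u : 𝕋3 => rep (u i) :=
  measurable_rep.comp (measurable_pi_apply (X := fun _ : Fin 3 => 𝕋) i)

theorem measurable_sv : Measurable sv := by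
  have h0 := measurable_rep_apply 0
  have h1 := measurable_rep_apply 1
  have h2 := measurable_rep_apply 2
  exact h0.prodMk (h1.prodMk h2)

theorem cfun_sv (u : 𝕋3) : cfun (sv u) = u := by
  unfold cfun sv
  have h0 : ⌊rep (u 0)⌋ = 0 := Int.floor_eq_zero_iff.2 (rep_mem _)
  ext i
  fin_cases i
  · exact coe_rep _
  · exact coe_rep _
  · simp [h0, coe_rep]

theorem pr_sv_cfun (v : ℝ × ℝ × ℝ) : pr (sv (cfun v)) = pr v := by
  rw [eq_comm, pr_eq]
  unfold cfun sv
  simp only [Matrix.cons_val_zero, Matrix.cons_val_one, Matrix.cons_val, rep_coe]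
  refine ⟨-⌊v.1⌋, -⌊v.2.1⌋, -⌊v.2.2 - ⌊v.1⌋ * v.2.1⌋, ?_⟩
  refine Prod.ext ?_ (Prod.ext ?_ ?_)
  · simp only [Int.fract, Int.cast_neg]; ring
  · simp only [Int.fract, Int.cast_neg]; ring
  · simp only [Int.fract, Int.cast_neg]; ring

/-- the nilmanifold is isomorphic to the torus, as a measurable space -/
noncomputable def Θ : Nil ≃ᵐ 𝕋3 where
  toFun := Ψ
  invFun u := pr (sv u)
  left_inv p := by
    obtain ⟨v, rfl⟩ := pr_surj p
    exact pr_sv_cfun v
  right_inv u := cfun_sv u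
  measurable_toFun := measurable_Ψ
  measurable_invFun := measurable_coset_toH.comp measurable_sv

theorem Θ_pr (v : ℝ × ℝ × ℝ) : Θ (pr v) = cfun v := rfl
theorem Θ_symm (u : 𝕋3) : Θ.symm u = pr (sv u) := rfl

end Pool.Agent.Y316.NF
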