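import Pool.Agent.Y316.NF.Nontriv

set_option autoImplicit false

/-!
# The time change
-/

open MeasureTheory Filter Topology Set
open scoped ContDiff

namespace Pool.Agent.Y316.NF

namespace Dat

variable {θ : ℝ} (D : Dat θ)

/-- the new time -/
noncomputable def R (p : Nil) (T : ℝ) : ℝ := ∫ s in (0 : ℝ)..T, D.α (φ θ s p)

theorem R_eq (p : Nil) (T : ℝ) : D.R p T = T + ∑' j, (D.A j (φ θ T p) - D.A j p) :=
  D.integral_α p T

theorem R_zero (p : Nil) : D.R p 0 = 0 := by unfold R; simp

theorem hasDerivAt_R (p : Nil) (T : ℝ) : HasDerivAt (D.R p) (D.α (φ θ T p)) T := by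
  have hc := D.continuous_α_flow p
  exact intervalIntegral.integral_hasDerivAt_right (hc.intervalIntegrable _ _)
    (hc.stronglyMeasurableAtFilter _ _) hc.continuousAt

theorem continuous_R (p : Nil) : Continuous (D.R p) :=
  continuous_iff_continuousAt.2 fun T => (D.hasDerivAt_R p T).continuousAt

theorem strictMono_R (p : Nil) : StrictMono (D.R p) := by
  refine strictMono_of_deriv_pos fun T => ?_
  rw [(D.hasDerivAt_R p T).deriv]
  exact D.α_pos _

theorem R_add (p : Nil) (S T : ℝ) : D.R p (S + T) = D.R p S + D.R (φ θ S p) T := by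
  unfold R
  have hc := D.continuous_α_flow p
  rw [← intervalIntegral.integral_add_adjacent_intervals (hc.intervalIntegrable 0 S)
    (hc.intervalIntegrable S (S + T))]
  congr 1
  have : ∀ s, D.α (φ θ s (φ θ S p)) = D.α (φ θ (s + S) p) := fun s => by rw [φ_add]
  simp_rw [this]
  rw [intervalIntegral.integral_comp_add_right (fun s => D.α (φ θ s p))]
  simp [add_comm]

theorem monotone_R (p : Nil) : Monotone fun T => D.R p T - 3 / 4 * T := by
  have hd : ∀ T, HasDerivAt (fun T => D.R p T - 3 / 4 * T) (D.α (φ θ T p) - 3 / 4) T := by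
    intro T
    have := (D.hasDerivAt_R p T).sub ((hasDerivAt_id T).const_mul (3 / 4 : ℝ))
    rw [mul_one] at this
    exact this
  refine monotone_of_deriv_nonneg (fun T => (hd T).differentiableAt) fun T => ?_
  rw [(hd T).deriv]
  linarith [D.α_ge (φ θ T p)]

theorem R_ge (p : Nil) {T : ℝ} (hT : 0 ≤ T) : 3 / 4 * T ≤ D.R p T := by
  have := D.monotone_R p hT
  simp only [D.R_zero] at this
  linarith

theorem R_le (p : Nil) {T : ℝ} (hT : T ≤ 0) : D.R p T ≤ 3 / 4 * T := by
  have := D.monotone_R p hT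
  simp only [D.R_zero] at this
  linarith

theorem surjective_R (p : Nil) : Function.Surjective (D.R p) := by
  refine (D.continuous_R p).surjective ?_ ?_
  · refine tendsto_atTop_mono' atTop (f₁ := fun T : ℝ => 3 / 4 * T) ?_ ?_
    · filter_upwards [eventually_ge_atTop (0 : ℝ)] with T hT
      exact D.R_ge p hT
    · exact tendsto_id.const_mul_atTop (by norm_num)
  · refine tendsto_atBot_mono' atBot (f₁ := fun T : ℝ => 3 / 4 * T) ?_ ?_
    · filter_upwards [eventually_le_atBot (0 : ℝ)] with T hT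
      exact D.R_le p hT
    · exact tendsto_id.const_mul_atBot (by norm_num)

/-- the new time as an order isomorphism -/
noncomputable def iso (p : Nil) : ℝ ≃o ℝ :=
  (D.strictMono_R p).orderIsoOfSurjective (D.R p) (D.surjective_R p)

theorem iso_apply (p : Nil) (T : ℝ) : D.iso p T = D.R p T := rfl

/-- the old time as a function of the new time -/
noncomputable def τ (p : Nil) (t : ℝ) : ℝ := (D.iso p).symm t

theorem R_τ (p : Nil) (t : ℝ) : D.R p (D.τ p t) = t := (D.iso p).apply_symm_apply t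

theorem τ_R (p : Nil) (T : ℝ) : D.τ p (D.R p T) = T := (D.iso p).symm_apply_apply T

theorem τ_eq {p : Nil} {t T : ℝ} (h : D.R p T = t) : D.τ p t = T := by
  rw [← h, τ_R]

theorem τ_zero (p : Nil) : D.τ p 0 = 0 := D.τ_eq (D.R_zero p)

theorem continuous_τ (p : Nil) : Continuous (D.τ p) := (D.iso p).symm.continuous

theorem hasDerivAt_τ (p : Nil) (t : ℝ) :
    HasDerivAt (D.τ p) (1 / D.α (φ θ (D.τ p t) p)) t := by
  rw [one_div]
  exact HasDerivAt.of_local_left_inverse (D.continuous_τ p).continuousAt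
    (D.hasDerivAt_R p (D.τ p t)) (D.α_pos _).ne' (Eventually.of_forall fun y => D.R_τ p y)

/-- the time change -/
noncomputable def ψ (t : ℝ) (p : Nil) : Nil := φ θ (D.τ p t) p

theorem isTimeChange : IsTimeChange (nilflow 1 θ 0) D.α D.ψ := fun p =>
  ⟨D.τ p, D.τ_zero p, fun t => ⟨rfl, D.hasDerivAt_τ p t⟩⟩

/-- uniqueness of the time change -/
theorem unique {ψ' : ℝ → Nil → Nil} (h : IsTimeChange (nilflow 1 θ 0) D.α ψ') : ψ' = D.ψ := by
  funext t p
  obtain ⟨T, h0, hT⟩ := h p
  have h1 : ∀ t, HasDerivAt (fun t => D.R p (T t)) 1 t := by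
    intro t
    have h2 := (D.hasDerivAt_R p (T t)).comp t (hT t).2
    rw [(hT t).1] at h2
    have h3 : D.α (φ θ (T t) p) * (1 / D.α (nilflow 1 θ 0 (T t) p)) = 1 :=
      mul_one_div_cancel (D.α_pos _).ne'
    rw [h3] at h2
    exact h2
  have h2 : ∀ t, D.R p (T t) = t := by
    intro t
    have h3 : ∀ x y, (fun t => D.R p (T t) - t) x = (fun t => D.R p (T t) - t) y := by
      refine is_const_of_deriv_eq_zero (fun x => ((h1 x).sub (hasDerivAt_id x)).differentiableAt)
        fun x => ?_
      have := ((h1 x).sub (hasDerivAt_id x)).deriv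
      rw [sub_self] at this
      exact this
    have h4 := h3 t 0
    simp only [h0, D.R_zero] at h4
    linarith
  rw [(hT t).1]
  show φ θ (T t) p = φ θ (D.τ p t) p
  rw [D.τ_eq (h2 t)]

theorem ψ_zero (p : Nil) : D.ψ 0 p = p := by
  unfold ψ
  rw [D.τ_zero, φ_zero]

theorem ψ_φ (p : Nil) (s t : ℝ) : D.ψ t (φ θ s p) = D.ψ (D.R p s + t) p := by
  unfold ψ
  have h : D.τ p (D.R p s + t) = s + D.τ (φ θ s p) t := by
    refine D.τ_eq ?_
    rw [R_add, R_τ]
  rw [h, ← φ_add, add_comm]

theorem ψ_add (s t : ℝ) (p : Nil) : D.ψ (s + t) p = D.ψ t (D.ψ s p) := by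
  conv_rhs => rw [show D.ψ s p = φ θ (D.τ p s) p from rfl, D.ψ_φ, D.R_τ]

theorem ψ_neg (t : ℝ) (p : Nil) : D.ψ (-t) (D.ψ t p) = p := by
  rw [← ψ_add, add_neg_cancel, ψ_zero]

theorem ψ_neg' (t : ℝ) (p : Nil) : D.ψ t (D.ψ (-t) p) = p := by
  rw [← ψ_add, neg_add_cancel, ψ_zero]

theorem image_ψ (t : ℝ) (A : Set Nil) : D.ψ t '' A = D.ψ (-t) ⁻¹' A := by
  ext p
  constructor
  · rintro ⟨q, hq, rfl⟩
    rw [mem_preimage, ψ_neg]
    exact hq
  · intro hp
    exact ⟨_, hp, D.ψ_neg' t p⟩

theorem measurable_R (T : ℝ) : Measurable fun p => D.R p T := by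
  have h : StronglyMeasurable (Function.uncurry fun (s : ℝ) (p : Nil) => D.α (φ θ s p)) :=
    (D.measurable_α.comp (measurable_φ_joint θ)).stronglyMeasurable
  unfold R
  simp only [intervalIntegral]
  exact (h.integral_prod_left.sub h.integral_prod_left).measurable

theorem measurable_τ (t : ℝ) : Measurable fun p => D.τ p t := by
  refine measurable_of_Iic fun c => ?_
  have : (fun p => D.τ p t) ⁻¹' Iic c = {p | t ≤ D.R p c} := by
    ext p
    exact (D.iso p).symm_apply_le
  rw [this]
  exact measurableSet_le measurable_const (D.measurable_R c)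

theorem measurable_ψ (t : ℝ) : Measurable (D.ψ t) :=
  (measurable_φ_joint θ).comp ((D.measurable_τ t).prodMk measurable_id)

theorem measurable_ψ_orbit (p : Nil) : Measurable fun t => D.ψ t p :=
  (measurable_φ_joint θ).comp ((D.continuous_τ p).measurable.prodMk measurable_const)

end Dat

end Pool.Agent.Y316.NF
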