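import Pool.Agent.Y316.NF.Alpha

set_option autoImplicit false

/-!
# The behaviour of the Birkhoff sums of `α` at special times
-/

open MeasureTheory Filter Topology Set
open scoped ContDiff ComplexConjugate

namespace Pool.Agent.Y316.NF

namespace Dat

variable {θ : ℝ} (D : Dat θ)

/-- the Birkhoff sum of `α - 1` -/
noncomputable def S (t : ℝ) (p : Nil) : ℝ := ∑' j, (D.A j (φ θ t p) - D.A j p)

/-- the multipliers -/
noncomputable def M (j : ℕ) : ℤ := round (1 / (2 * (D.q j * D.δ j)))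

/-- the times -/
noncomputable def N (j : ℕ) : ℤ := D.q j * D.M j

theorem qδ_ne (j : ℕ) : (D.q j : ℝ) * D.δ j ≠ 0 :=
  mul_ne_zero (by have := D.qpos j; linarith) (D.δ0 j)

/-- `q_j M_j δ_j` is close to `1/2` -/
theorem near_half (j : ℕ) : |(D.q j : ℝ) * (D.M j * D.δ j) - 1 / 2| ≤ D.q j * |D.δ j| / 2 := by
  have h1 := abs_sub_round (1 / (2 * (D.q j * D.δ j)))
  have hne := D.qδ_ne j
  have h2 : (D.q j : ℝ) * (D.M j * D.δ j) - 1 / 2 =
      -((D.q j * D.δ j) * (1 / (2 * (D.q j * D.δ j)) - (D.M j : ℝ))) := by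
    have : (D.q j * D.δ j) * (1 / (2 * (D.q j * D.δ j))) = 1 / 2 := by
      rw [one_div, mul_inv, mul_comm (2 : ℝ)⁻¹, ← mul_assoc, mul_inv_cancel₀ hne]
      norm_num
    rw [mul_sub, this]
    ring
  rw [h2, abs_neg, abs_mul, abs_mul, abs_of_nonneg (Nat.cast_nonneg (α := ℝ) (D.q j))]
  have h3 : 0 ≤ (D.q j : ℝ) * |D.δ j| := by positivity
  calc (D.q j : ℝ) * |D.δ j| * |1 / (2 * (D.q j * D.δ j)) - (D.M j : ℝ)|
      ≤ (D.q j : ℝ) * |D.δ j| * (1 / 2) := mul_le_mul_of_nonneg_left h1 h3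
    _ = D.q j * |D.δ j| / 2 := by ring

theorem qδ_small (j : ℕ) : (D.q j : ℝ) * |D.δ j| ≤ (1 / 2) ^ (j + 3) := by
  refine le_trans ?_ (D.δBq j)
  have h1 := D.hB1 j
  have h2 : 0 ≤ (D.q j : ℝ) * |D.δ j| := by positivity
  nlinarith

theorem pow_le_eighth (j : ℕ) : (1 / 2 : ℝ) ^ (j + 3) ≤ 1 / 8 := by
  calc (1 / 2 : ℝ) ^ (j + 3) ≤ (1 / 2) ^ 3 :=
        pow_le_pow_of_le_one (by norm_num) (by norm_num) (by omega)
    _ = 1 / 8 := by norm_num

theorem qMδ_le (j : ℕ) : (D.q j : ℝ) * |D.M j * D.δ j| ≤ 1 := by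
  have h1 := abs_le.1 (D.near_half j)
  have h2 := D.qδ_small j
  have h3 := pow_le_eighth j
  have h4 : (D.q j : ℝ) * |(D.M j : ℝ) * D.δ j| = |(D.q j : ℝ) * (D.M j * D.δ j)| := by
    rw [abs_mul (D.q j : ℝ), abs_of_nonneg (Nat.cast_nonneg (α := ℝ) (D.q j))]
  rw [h4, abs_le]
  constructor <;> linarith [h1.1, h1.2]

theorem qMδ_ge (j : ℕ) : 1 / 4 ≤ (D.q j : ℝ) * |D.M j * D.δ j| := by
  have h1 := abs_le.1 (D.near_half j)
  have h2 := D.qδ_small j
  have h3 := pow_le_eighth j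
  have h4 : (D.q j : ℝ) * |(D.M j : ℝ) * D.δ j| = |(D.q j : ℝ) * (D.M j * D.δ j)| := by
    rw [abs_mul (D.q j : ℝ), abs_of_nonneg (Nat.cast_nonneg (α := ℝ) (D.q j))]
  rw [h4]
  refine le_trans ?_ (le_abs_self _)
  linarith [h1.1, h1.2]

theorem N_cast (j : ℕ) : (D.N j : ℝ) = D.q j * D.M j := by
  unfold N
  push_cast
  ring

/-- the increment of the `i`-th linear form at time `N_j` -/
theorem N_mul_δ (i j : ℕ) : (D.N j : ℝ) * D.δ i = (D.q i : ℝ) * (D.M j * D.δ j) +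
    ((D.q i * D.M j * D.p j - D.N j * D.p i : ℤ) : ℝ) := by
  have h : (D.N j : ℝ) = D.q j * D.M j := D.N_cast j
  push_cast
  rw [h]
  unfold δ
  ring

theorem term_low {i j : ℕ} (hij : i < j) (p : Nil) :
    |D.A i (φ θ (D.N j) p) - D.A i p| ≤ (1 / 2) ^ j := by
  obtain ⟨v, rfl⟩ := pr_surj p
  rw [A_flow, A_pr, N_mul_δ, ← add_assoc, prof_add_int]
  refine (D.prof_lip i _ _).trans ?_
  rw [abs_mul, abs_of_nonneg (Nat.cast_nonneg (α := ℝ) (D.q i))]
  have h1 := D.qMδ_le j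
  have h2 := D.grow i j hij
  have h3 := D.qpos j
  have h4 : |(D.M j : ℝ) * D.δ j| ≤ 1 / D.q j := by
    rw [le_div_iff₀ (by linarith), mul_comm]
    exact h1
  have h5 : 0 ≤ D.B i * D.q i := mul_nonneg (D.Bpos i).le (Nat.cast_nonneg _)
  calc D.B i * (D.q i * |(D.M j : ℝ) * D.δ j|) = (D.B i * D.q i) * |(D.M j : ℝ) * D.δ j| := by
        ring
    _ ≤ (D.B i * D.q i) * (1 / D.q j) := mul_le_mul_of_nonneg_left h4 h5
    _ ≤ (1 / 2) ^ j := by
        rw [mul_one_div, div_le_iff₀ (by linarith), one_div, inv_pow, ← div_eq_inv_mul,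
          le_div_iff₀ (by positivity)]
        exact h2

theorem term_high {i j : ℕ} (hij : j < i) (p : Nil) :
    |D.A i (φ θ (D.N j) p) - D.A i p| ≤ (1 / 2) ^ i := by
  obtain ⟨v, rfl⟩ := pr_surj p
  rw [A_flow, A_pr]
  refine (D.prof_lip i _ _).trans ?_
  rw [abs_mul]
  have h1 := D.qMδ_le j
  have h2 := D.dec j i hij
  have h3 := D.δpos j
  have h4 : |(D.N j : ℝ)| * |D.δ j| ≤ 1 := by
    rw [N_cast, abs_mul, abs_of_nonneg (Nat.cast_nonneg (α := ℝ) (D.q j)), mul_assoc, ← abs_mul]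
    exact h1
  have h5 : |D.δ i| * D.B i ≤ (1 / 2) ^ i * |D.δ j| := by
    rw [one_div, inv_pow, ← div_eq_inv_mul, le_div_iff₀ (by positivity)]
    exact h2
  calc D.B i * (|(D.N j : ℝ)| * |D.δ i|) = |(D.N j : ℝ)| * (|D.δ i| * D.B i) := by ring
    _ ≤ |(D.N j : ℝ)| * ((1 / 2) ^ i * |D.δ j|) := mul_le_mul_of_nonneg_left h5 (abs_nonneg _)
    _ = (1 / 2) ^ i * (|(D.N j : ℝ)| * |D.δ j|) := by ring
    _ ≤ (1 / 2) ^ i * 1 := mul_le_mul_of_nonneg_left h4 (by positivity)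
    _ = (1 / 2) ^ i := mul_one _

theorem term_mid (j : ℕ) (p : Nil) :
    |(D.A j (φ θ (D.N j) p) - D.A j p) - (1 - 2 * D.A j p)| ≤ (1 / 2) ^ j := by
  obtain ⟨v, rfl⟩ := pr_surj p
  rw [A_flow, A_pr, N_mul_δ, ← add_assoc, prof_add_int]
  have h1 : D.lin j v + (D.q j : ℝ) * (D.M j * D.δ j) =
      (D.lin j v + 1 / 2) + ((D.q j : ℝ) * (D.M j * D.δ j) - 1 / 2) := by ring
  have h2 := D.prof_lip j (D.lin j v + 1 / 2) ((D.q j : ℝ) * (D.M j * D.δ j) - 1 / 2)
  rw [← h1, prof_add_half] at h2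
  have h3 : prof (D.K j) (D.lin j v + (D.q j : ℝ) * (D.M j * D.δ j)) - prof (D.K j) (D.lin j v) -
      (1 - 2 * prof (D.K j) (D.lin j v)) =
      prof (D.K j) (D.lin j v + (D.q j : ℝ) * (D.M j * D.δ j)) -
        (1 - prof (D.K j) (D.lin j v)) := by ring
  rw [h3]
  refine h2.trans ?_
  have h4 := D.near_half j
  have h5 := D.δBq j
  have h6 : (1 / 2 : ℝ) ^ (j + 3) ≤ (1 / 2) ^ j :=
    pow_le_pow_of_le_one (by norm_num) (by norm_num) (by omega)
  have h7 := D.Bpos j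
  have h8 : 0 ≤ |D.δ j| * D.B j * D.q j := by positivity
  calc D.B j * |(D.q j : ℝ) * (D.M j * D.δ j) - 1 / 2| ≤ D.B j * (D.q j * |D.δ j| / 2) :=
        mul_le_mul_of_nonneg_left h4 h7.le
    _ = (|D.δ j| * D.B j * D.q j) / 2 := by ring
    _ ≤ (1 / 2) ^ j := by linarith

theorem half_max (i j : ℕ) : (1 / 2 : ℝ) ^ (max i j) ≤ (3 / 4) ^ i * (3 / 4) ^ j := by
  rw [← pow_add]
  calc (1 / 2 : ℝ) ^ (max i j) ≤ ((3 / 4) ^ 2) ^ (max i j) :=
        pow_le_pow_left₀ (by norm_num) (by norm_num) _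
    _ = (3 / 4) ^ (2 * max i j) := by rw [pow_mul]
    _ ≤ (3 / 4) ^ (i + j) := pow_le_pow_of_le_one (by norm_num) (by norm_num) (by omega)

theorem S_near (j : ℕ) (p : Nil) :
    |D.S (D.N j) p - (1 - 2 * D.A j p)| ≤ 4 * (3 / 4) ^ j := by
  have hs := D.summable_A_sub p (D.N j)
  have hsum : HasSum (fun i : ℕ => (if i = j then (1 - 2 * D.A j p) else 0))
      (1 - 2 * D.A j p) := by
    have := hasSum_ite_eq j (1 - 2 * D.A j p)
    exact this
  have h1 : D.S (D.N j) p - (1 - 2 * D.A j p) =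
      ∑' i, ((D.A i (φ θ (D.N j) p) - D.A i p) - (if i = j then (1 - 2 * D.A j p) else 0)) := by
    rw [(hs.hasSum.sub hsum).tsum_eq]
    rfl
  rw [h1, ← Real.norm_eq_abs]
  have hg : HasSum (fun i : ℕ => (3 / 4 : ℝ) ^ i * (3 / 4) ^ j) (4 * (3 / 4) ^ j) := by
    have h2 := (hasSum_geometric_of_lt_one (r := (3 / 4 : ℝ)) (by norm_num) (by norm_num)).mul_right
      ((3 / 4 : ℝ) ^ j)
    have h3 : (1 - (3 / 4 : ℝ))⁻¹ = 4 := by norm_num
    rwa [h3] at h2
  refine tsum_of_norm_bounded hg fun i => ?_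
  rw [Real.norm_eq_abs]
  refine le_trans ?_ (half_max i j)
  rcases lt_trichotomy i j with h | h | h
  · rw [if_neg h.ne, sub_zero, max_eq_right h.le]
    exact D.term_low h p
  · subst h
    rw [if_pos rfl, max_self]
    exact D.term_mid i p
  · rw [if_neg h.ne', sub_zero, max_eq_left h.le]
    exact D.term_high h p

theorem integral_α_sub (p : Nil) (t c : ℝ) : ∫ s in (0 : ℝ)..t, (D.α (φ θ s p) - c) =
    (1 - c) * t + D.S t p := by
  rw [intervalIntegral.integral_sub ((D.continuous_α_flow p).intervalIntegrable _ _)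
    (continuous_const.intervalIntegrable _ _), D.integral_α]
  simp only [intervalIntegral.integral_const, sub_zero, smul_eq_mul]
  unfold S
  ring

/-- the set where the `j`-th transfer function is not an integer -/
def Bad (j : ℕ) : Set Nil := {p | ¬ (D.A j p = 0 ∨ D.A j p = 1)}

theorem measurableSet_Bad (j : ℕ) : MeasurableSet (D.Bad j) := by
  have h := D.measurable_A j
  exact ((measurableSet_eq_fun h measurable_const).union
    (measurableSet_eq_fun h measurable_const)).compl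

/-- the circle coordinate `q_j y - p_j x` -/
noncomputable def circ (j : ℕ) (p : Nil) : 𝕋 := ((D.lin j (sec p) : ℝ) : 𝕋)

theorem circ_eq (j : ℕ) (p : Nil) : D.circ j p = (D.q j : ℤ) • (Θ p 1) - (D.p j) • (Θ p 0) := by
  unfold circ lin sec sv
  simp only
  rw [AddCircle.coe_sub]
  congr 1
  · conv_rhs => rw [← coe_rep (Θ p 1)]
    rw [← AddCircle.coe_zsmul]
    simp
  · conv_rhs => rw [← coe_rep (Θ p 0)]
    rw [← AddCircle.coe_zsmul]
    simp

theorem measurable_circ (j : ℕ) : Measurable (D.circ j) := by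
  unfold circ
  refine AddCircle.measurable_mk'.comp ?_
  have : (fun p => D.lin j (sec p)) = fun p => D.linL j (sec p) := by
    funext p
    rw [linL_apply]
  rw [this]
  exact (D.linL j).continuous.measurable.comp measurable_sec

theorem map_circ (j : ℕ) : μ.map (D.circ j) = AddCircle.haarAddCircle := by
  have : IsProbabilityMeasure (μ.map (D.circ j)) :=
    Measure.isProbabilityMeasure_map (D.measurable_circ j).aemeasurable
  refine circle_eq_haar fun n hn => ?_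
  rw [integral_map_fun (D.measurable_circ j) (fourier n).continuous.measurable]
  have h1 : ∀ p : Nil, fourier n (D.circ j p) =
      UnitAddTorus.mFourier ![-(n * D.p j), n * D.q j, 0] (Θ p) := by
    intro p
    rw [mFourier_apply, Fin.prod_univ_three, D.circ_eq]
    simp only [Matrix.cons_val_zero, Matrix.cons_val_one, Matrix.cons_val, fourier_zero, mul_one]
    simp only [fourier_apply]
    rw [← Circle.coe_mul, ← AddCircle.toCircle_add]
    congr 2
    rw [smul_sub, smul_smul, smul_smul, neg_smul]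
    abel
  simp_rw [h1]
  rw [integral_μ]
  simp only [MeasurableEquiv.apply_symm_apply]
  refine integral_mFourier_haar ?_
  intro h
  have h2 : n * (D.q j : ℤ) = 0 := congrFun h 1
  rcases mul_eq_zero.1 h2 with h3 | h3
  · exact hn h3
  · have := D.q1 j
    have h4 : D.q j = 0 := by exact_mod_cast h3
    omega

theorem μ_Bad (j : ℕ) : μ (D.Bad j) ≤ (1 / 2) ^ j := by
  refine le_trans ?_ (D.hK j)
  rw [← D.map_circ j, Measure.map_apply (D.measurable_circ j) (measurableSet_bad _)]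
  refine measure_mono fun p hp => ?_
  by_contra h
  exact hp (not_bad (K := D.K j) (s := D.lin j (sec p)) h)

theorem μ_real_Bad (j : ℕ) : μ.real (D.Bad j) ≤ (1 / 2) ^ j := by
  have h := D.μ_Bad j
  have h2 := ENNReal.toReal_mono (by simp) h
  rw [measureReal_def]
  refine h2.trans ?_
  rw [ENNReal.toReal_pow]
  simp

theorem δ_tendsto : Tendsto (fun j => |D.δ j|) atTop (𝓝 0) := by
  refine squeeze_zero (fun j => abs_nonneg _) (fun j => ?_)
    (summable_half.tendsto_atTop_zero)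
  have h1 := D.δB j
  have h2 := D.hB1 j
  have h3 := abs_nonneg (D.δ j)
  nlinarith

theorem N_abs_tendsto : Tendsto (fun j => |(D.N j : ℝ)|) atTop atTop := by
  have h1 : ∀ j, 1 / 4 * |D.δ j|⁻¹ ≤ |(D.N j : ℝ)| := by
    intro j
    have h2 := D.qMδ_ge j
    have h3 := D.δpos j
    have h4 : |(D.N j : ℝ)| * |D.δ j| = (D.q j : ℝ) * |D.M j * D.δ j| := by
      rw [N_cast, abs_mul, abs_of_nonneg (Nat.cast_nonneg (α := ℝ) (D.q j)), mul_assoc, ← abs_mul]
    rw [← h4] at h2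
    rw [← div_eq_mul_inv, div_le_iff₀ h3]
    exact h2
  refine tendsto_atTop_mono h1 ?_
  refine Tendsto.const_mul_atTop (by norm_num) ?_
  have h5 : Tendsto (fun j => |D.δ j|) atTop (𝓝[>] 0) :=
    tendsto_nhdsWithin_iff.2 ⟨D.δ_tendsto, Eventually.of_forall fun j => D.δpos j⟩
  exact h5.inv_tendsto_nhdsGT_zero

theorem N_cofinite : Tendsto (fun j => D.N j) atTop cofinite := by
  rw [tendsto_def]
  intro s hs
  rw [mem_cofinite] at hs
  obtain ⟨C, hC⟩ : ∃ C : ℝ, ∀ n ∈ sᶜ, |(n : ℝ)| ≤ C := by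
    obtain ⟨C, hC⟩ := (hs.image fun n : ℤ => |(n : ℝ)|).bddAbove
    exact ⟨C, fun n hn => hC ⟨n, hn, rfl⟩⟩
  filter_upwards [D.N_abs_tendsto.eventually_gt_atTop C] with j hj
  by_contra h
  have := hC _ h
  linarith

theorem q_tendsto : Tendsto (fun j => |(D.M j : ℝ) * D.δ j|) atTop (𝓝 0) := by
  have h1 : ∀ j, 1 ≤ j → |(D.M j : ℝ) * D.δ j| ≤ (1 / 2) ^ j := by
    intro j hj
    have h2 := D.qMδ_le j
    have h3 := D.grow 0 j (by omega)
    have h4 := D.hB1 0
    have h5 := D.qpos 0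
    have h6 : (2 : ℝ) ^ j ≤ D.q j := by
      have h7 : 1 ≤ D.B 0 * D.q 0 := by nlinarith
      have h8 : (0 : ℝ) < 2 ^ j := by positivity
      nlinarith
    have h7 := abs_nonneg ((D.M j : ℝ) * D.δ j)
    have h8 : (2 : ℝ) ^ j * |(D.M j : ℝ) * D.δ j| ≤ 1 :=
      (mul_le_mul_of_nonneg_right h6 h7).trans h2
    rw [one_div, inv_pow, ← one_div, le_div_iff₀ (by positivity), mul_comm]
    exact h8
  refine squeeze_zero' (Eventually.of_forall fun j => abs_nonneg _)
    ((eventually_ge_atTop 1).mono fun j hj => h1 j hj)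
    (tendsto_pow_atTop_nhds_zero_of_lt_one (by norm_num) (by norm_num))

end Dat

end Pool.Agent.Y316.NF
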